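import Pool.Agent.Y385.SPI.Small

/-!
# Iterated products of sets of integers covered by dilates of short intervals

* If `A_i` is covered by `K_i` dilates `q [-N_i, N_i]`, `q` rational, `N_i = |A_i| ^ D`, then
  `|A_1 ⋯ A_k B| ≥ c (|A_1| ⋯ |A_k| |B|) ^ (1 - ε) / (K_1 ⋯ K_k)` for EVERY finite set `B ≠ {0}` of
  integers. In particular `|A ^ k| ≥ c |A| ^ (k - ε) / K ^ (k - 1)`.
* If every element of `A` is `s b` with `s` in a set `S` of integers with pairwise greatest common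
  divisors at most `N = |A| ^ D` and `|b| ≤ N`, then `|A ^ k| ≥ c |A| ^ (k - ε)`. There is no
  condition on the size or the number of the elements of `S`; for example `S` may be any set of
  primes, or any interval of length `N`, wherever it lies.

Proof. Colour `A` in such a way that two elements of the same colour have a ratio of height at most
`H`. The solutions of `x z = y w`, `x, y ∈ A`, `z, w ∈ B`, for which `x / y` has small height are
few for all `A` and `B`, by the Cauchy–Schwarz inequality and a theorem of the starting files on one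
set. So it is enough that for every `v` the elements `x` of `A` with `v / x ∈ B` have few colours;
this is used for `B = A_2 ⋯ A_k B`.
-/

set_option autoImplicit false

namespace Pool.Agent.Results.MP_120218_co.KFoldDilates

open Finset
open scoped Pointwise
open Pool.Agent.Y385.SPI

/-- The Cauchy–Schwarz inequality for the fibres of a map. -/
lemma card_sq_le {α β : Type} [DecidableEq α] [DecidableEq β] (G : Finset α) (φ : α → β) :
    (#G) ^ 2 ≤ #(G.image φ) * #((G ×ˢ G).filter fun p => φ p.1 = φ p.2) := by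
  have h1 : #G = ∑ f ∈ G.image φ, #(G.filter fun a => φ a = f) :=
    Finset.card_eq_sum_card_image φ G
  have h2 : #((G ×ˢ G).filter fun p => φ p.1 = φ p.2) =
      ∑ f ∈ G.image φ, #(G.filter fun a => φ a = f) ^ 2 := by
    rw [Finset.card_eq_sum_card_fiberwise (f := fun p : α × α => φ p.1) (t := G.image φ)
      (by
        intro p hp
        have h3 := (Finset.mem_product.1 (Finset.mem_filter.1 hp).1).1
        exact Finset.mem_image_of_mem φ h3)]
    apply Finset.sum_congr rfl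
    intro f _
    rw [sq, ← Finset.card_product]
    congr 1
    ext ⟨a, b⟩
    simp only [Finset.mem_filter, Finset.mem_product]
    constructor
    · rintro ⟨⟨⟨h3, h4⟩, h5⟩, h6⟩
      exact ⟨⟨h3, h6⟩, h4, by rw [← h5]; exact h6⟩
    · rintro ⟨⟨h3, h4⟩, h5, h6⟩
      exact ⟨⟨⟨h3, h5⟩, by rw [h4, h6]⟩, h4⟩
  rw [h2]
  calc (#G) ^ 2 = (∑ f ∈ G.image φ, #(G.filter fun a => φ a = f)) ^ 2 := by rw [← h1]
    _ ≤ _ := sq_sum_le_card_mul_sum_sq

/-- The solutions of `x z = y w`, `x, y ∈ A`, `z, w ∈ B`, for which `x / y` has height at most `H`. -/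
def small2 (A B : Finset ℕ) (H : ℕ) : Finset ((ℕ × ℕ) × (ℕ × ℕ)) :=
  ((A ×ˢ A) ×ˢ (B ×ˢ B)).filter fun q => q.1.1 * q.2.1 = q.1.2 * q.2.2 ∧
    max q.1.1 q.1.2 ≤ H * Nat.gcd q.1.1 q.1.2

theorem small2_le (A B : Finset ℕ) (hA : ∀ x ∈ A, x ≠ 0) (H : ℕ) :
    (small2 A B H).card ≤ ∑ p ∈ PH H, rep A p * rep B p := by
  classical
  have hsub : small2 A B H ⊆ (PH H).biUnion fun p =>
      ((A ×ˢ A).filter fun q => p.2 * q.1 = p.1 * q.2) ×ˢ
      (((B ×ˢ B).filter fun q => p.2 * q.1 = p.1 * q.2).image Prod.swap) := by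
    intro q hq
    unfold small2 at hq
    rw [Finset.mem_filter, Finset.mem_product, Finset.mem_product, Finset.mem_product] at hq
    obtain ⟨⟨⟨hx, hz⟩, ⟨hy, hw⟩⟩, heq, hmax⟩ := hq
    have hx0 := hA _ hx
    have hz0 := hA _ hz
    set g := Nat.gcd q.1.1 q.1.2 with hg
    have hg0 : 0 < g := Nat.gcd_pos_of_pos_left _ (Nat.pos_of_ne_zero hx0)
    obtain ⟨b, hb⟩ := Nat.gcd_dvd_left q.1.1 q.1.2
    obtain ⟨c, hc⟩ := Nat.gcd_dvd_right q.1.1 q.1.2
    rw [← hg] at hb hc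
    have hcop : Nat.Coprime b c := by
      have := Nat.coprime_div_gcd_div_gcd (m := q.1.1) (n := q.1.2) hg0
      rw [← hg] at this
      have e1 : q.1.1 / g = b := by rw [hb]; exact Nat.mul_div_cancel_left b hg0
      have e2 : q.1.2 / g = c := by rw [hc]; exact Nat.mul_div_cancel_left c hg0
      rwa [e1, e2] at this
    have hb0 : 1 ≤ b := by
      rcases Nat.eq_zero_or_pos b with h | h
      · rw [h, mul_zero] at hb; exact absurd hb hx0
      · exact h
    have hc0 : 1 ≤ c := by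
      rcases Nat.eq_zero_or_pos c with h | h
      · rw [h, mul_zero] at hc; exact absurd hc hz0
      · exact h
    have hbH : b ≤ H := by
      have h1 : q.1.1 ≤ H * g := (le_max_left _ _).trans hmax
      rw [hb, mul_comm] at h1
      exact Nat.le_of_mul_le_mul_right h1 hg0
    have hcH : c ≤ H := by
      have h1 : q.1.2 ≤ H * g := (le_max_right _ _).trans hmax
      rw [hc, mul_comm] at h1
      exact Nat.le_of_mul_le_mul_right h1 hg0
    rw [Finset.mem_biUnion]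
    refine ⟨(b, c), ?_, ?_⟩
    · unfold PH
      rw [Finset.mem_filter, Finset.mem_product, Finset.mem_Icc, Finset.mem_Icc]
      exact ⟨⟨⟨hb0, hbH⟩, ⟨hc0, hcH⟩⟩, hcop⟩
    · rw [Finset.mem_product]
      refine ⟨?_, ?_⟩
      · rw [Finset.mem_filter, Finset.mem_product]
        refine ⟨⟨hx, hz⟩, ?_⟩
        simp only
        rw [hb, hc]; ring
      · rw [Finset.mem_image]
        refine ⟨(q.2.2, q.2.1), ?_, rfl⟩
        rw [Finset.mem_filter, Finset.mem_product]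
        refine ⟨⟨hw, hy⟩, ?_⟩
        simp only
        have h1 : g * (b * q.2.1) = g * (c * q.2.2) := by
          rw [← mul_assoc, ← mul_assoc, ← hb, ← hc]; exact heq
        exact (Nat.eq_of_mul_eq_mul_left hg0 h1).symm
  refine (Finset.card_le_card hsub).trans (Finset.card_biUnion_le.trans ?_)
  refine Finset.sum_le_sum fun p _ => ?_
  rw [Finset.card_product, Finset.card_image_of_injective _ Prod.swap_injective]
  exact le_rfl

/-- **Ratios of small height contribute little to the multiplicative energy of two sets.** -/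
theorem small2_bound (ε : ℝ) (hε : 0 < ε) : ∃ K : ℝ, 0 < K ∧ ∀ H : ℕ, 1 ≤ H → ∀ A B : Finset ℕ,
    (∀ x ∈ A, x ≠ 0) → (∀ x ∈ B, x ≠ 0) →
    ((small2 A B H).card : ℝ) ≤ K * (((H : ℝ) * #A) * (H * #B)) ^ ε * (#A * #B) := by
  obtain ⟨K, hK, h⟩ := rep_bound (2 * ε) (by positivity)
  refine ⟨K, hK, fun H hH A B hA hB => ?_⟩
  rcases A.eq_empty_or_nonempty with rfl | hneA
  · simp [small2]
  rcases B.eq_empty_or_nonempty with rfl | hneB
  · simp [small2]
  have h1 : ((small2 A B H).card : ℝ) ≤ ∑ p ∈ PH H, (rep A p : ℝ) * rep B p := by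
    have := small2_le A B hA H
    exact_mod_cast this
  refine h1.trans ?_
  have h2 : (∑ p ∈ PH H, (rep A p : ℝ) * rep B p) ^ 2 ≤
      (∑ p ∈ PH H, (rep A p : ℝ) ^ 2) * ∑ p ∈ PH H, (rep B p : ℝ) ^ 2 :=
    Finset.sum_mul_sq_le_sq_mul_sq _ _ _
  have h3 : (∑ p ∈ PH H, (rep A p : ℝ) * rep B p) ^ 2 ≤
      (K * (((H : ℝ) * #A) * (H * #B)) ^ ε * (#A * #B)) ^ 2 := by
    refine h2.trans ((mul_le_mul (h H hH A hA hneA) (h H hH B hB hneB)
      (Finset.sum_nonneg fun _ _ => by positivity) (by positivity)).trans (le_of_eq ?_))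
    have h4 : ∀ y : ℝ, 0 ≤ y → y ^ (2 * ε) = (y ^ ε) ^ 2 := by
      intro y hy
      rw [← Real.rpow_natCast, ← Real.rpow_mul hy]
      congr 1
      push_cast
      ring
    rw [h4 _ (by positivity), h4 _ (by positivity),
      Real.mul_rpow (x := (H : ℝ) * #A) (y := (H : ℝ) * #B) (by positivity) (by positivity)]
    generalize ((H : ℝ) * #A) ^ ε = u
    generalize ((H : ℝ) * #B) ^ ε = w
    ring
  exact (pow_le_pow_iff_left₀ (Finset.sum_nonneg fun _ _ => by positivity) (by positivity)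
    (by norm_num)).1 h3

/-- **Colours.** -/
theorem colours (ε : ℝ) (hε : 0 < ε) : ∃ C : ℝ, 0 < C ∧ ∀ (H L : ℕ) (A B : Finset ℕ)
    (colour : ℕ → ℕ), 1 ≤ H → (∀ x ∈ A, x ≠ 0) → (∀ z ∈ B, z ≠ 0) →
    (∀ x ∈ A, ∀ y ∈ A, colour x = colour y → max x y ≤ H * Nat.gcd x y) →
    (∀ v : ℕ, #((A.filter fun x => ∃ z ∈ B, x * z = v).image colour) ≤ L) →
    ∀ G ⊆ A ×ˢ B, ((#G : ℕ) : ℝ) ^ 2 ≤
      C * (((H : ℝ) * #A) * (H * #B)) ^ ε * (L * (#A * #B)) * #(G.image fun s => s.1 * s.2) := by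
  obtain ⟨C, hC, h⟩ := small2_bound ε hε
  refine ⟨C, hC, fun H L A B colour hH hA hB hcol hL G hG => ?_⟩
  have h0 := h H hH A B hA hB
  let φ : ℕ × ℕ → ℕ × ℕ := fun s => (s.1 * s.2, colour s.1)
  have h1 := card_sq_le G φ
  -- the number of fibres
  have h2 : #(G.image φ) ≤ L * #(G.image fun s => s.1 * s.2) := by
    rw [Finset.card_eq_sum_card_fiberwise (f := fun q : ℕ × ℕ => q.1)
      (t := G.image fun s => s.1 * s.2) (by
        intro q hq
        rw [Finset.mem_coe] at hq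
        obtain ⟨s, hs, rfl⟩ := Finset.mem_image.1 hq
        exact Finset.mem_image_of_mem (fun s : ℕ × ℕ => s.1 * s.2) hs)]
    calc ∑ v ∈ G.image (fun s => s.1 * s.2), #((G.image φ).filter fun q => q.1 = v)
        ≤ ∑ v ∈ G.image (fun s => s.1 * s.2), L := by
          apply Finset.sum_le_sum
          intro v _
          refine le_trans ?_ (hL v)
          apply Finset.card_le_card_of_injOn (fun q : ℕ × ℕ => q.2)
          · intro q hq
            rw [Finset.mem_coe] at hq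
            obtain ⟨hq1, hq2⟩ := Finset.mem_filter.1 hq
            obtain ⟨s, hs, rfl⟩ := Finset.mem_image.1 hq1
            obtain ⟨hs1, hs2⟩ := Finset.mem_product.1 (hG hs)
            rw [Finset.mem_coe]
            exact Finset.mem_image_of_mem colour (Finset.mem_filter.2 ⟨hs1, s.2, hs2, hq2⟩)
          · intro q hq q' hq' hqq
            rw [Finset.mem_coe] at hq hq'
            have h3 := (Finset.mem_filter.1 hq).2
            have h4 := (Finset.mem_filter.1 hq').2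
            exact Prod.ext (h3.trans h4.symm) hqq
      _ = L * #(G.image fun s => s.1 * s.2) := by
          rw [Finset.sum_const, smul_eq_mul, Nat.mul_comm]
  -- the pairs in the same fibre
  have h3 : #((G ×ˢ G).filter fun p => φ p.1 = φ p.2) ≤ #(small2 A B H) := by
    apply Finset.card_le_card_of_injOn
      (fun p : (ℕ × ℕ) × (ℕ × ℕ) => ((p.1.1, p.2.1), (p.1.2, p.2.2)))
    · rintro ⟨⟨x, z⟩, ⟨y, w⟩⟩ hp
      rw [Finset.mem_coe] at hp
      obtain ⟨hp1, hp2⟩ := Finset.mem_filter.1 hp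
      obtain ⟨hp3, hp4⟩ := Finset.mem_product.1 hp1
      obtain ⟨hx, hz⟩ := Finset.mem_product.1 (hG hp3)
      obtain ⟨hy, hw⟩ := Finset.mem_product.1 (hG hp4)
      simp only [φ, Prod.mk.injEq] at hp2 hx hz hy hw
      rw [Finset.mem_coe]
      unfold small2
      simp only [Finset.mem_filter, Finset.mem_product]
      exact ⟨⟨⟨hx, hy⟩, hz, hw⟩, hp2.1, hcol x hx y hy hp2.2⟩
    · rintro ⟨⟨x, z⟩, ⟨y, w⟩⟩ _ ⟨⟨x', z'⟩, ⟨y', w'⟩⟩ _ hpp
      simp only [Prod.mk.injEq] at hpp ⊢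
      tauto
  have h4 : ((#G : ℕ) : ℝ) ^ 2 ≤ (L * #(G.image fun s => s.1 * s.2) : ℝ) * #(small2 A B H) := by
    have h5 := h1.trans (Nat.mul_le_mul h2 h3)
    exact_mod_cast h5
  refine h4.trans ?_
  calc (L * #(G.image fun s => s.1 * s.2) : ℝ) * #(small2 A B H)
      ≤ (L * #(G.image fun s => s.1 * s.2) : ℝ) *
          (C * (((H : ℝ) * #A) * (H * #B)) ^ ε * (#A * #B)) :=
        mul_le_mul_of_nonneg_left h0 (by positivity)
    _ = _ := by ring

/-- The absolute values of the nonzero elements. -/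
def absSet (A : Finset ℤ) : Finset ℕ := (A.erase 0).image Int.natAbs

lemma mem_absSet {A : Finset ℤ} {x : ℕ} (hx : x ∈ absSet A) : x ≠ 0 ∧ ∃ a ∈ A, a.natAbs = x := by
  obtain ⟨a, ha, rfl⟩ := Finset.mem_image.1 hx
  obtain ⟨h1, h2⟩ := Finset.mem_erase.1 ha
  exact ⟨by simpa using h1, a, h2, rfl⟩

lemma card_absSet (A : Finset ℤ) : #A ≤ 2 * #(absSet A) + 1 := by
  classical
  have h1 : A ⊆ insert 0 (((absSet A).image fun x : ℕ => (x : ℤ)) ∪
      ((absSet A).image fun x : ℕ => -(x : ℤ))) := by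
    intro a ha
    rcases eq_or_ne a 0 with h | h
    · rw [h]; exact Finset.mem_insert_self _ _
    · apply Finset.mem_insert_of_mem
      have h2 : a.natAbs ∈ absSet A :=
        Finset.mem_image_of_mem _ (Finset.mem_erase.2 ⟨h, ha⟩)
      rcases Int.natAbs_eq a with h3 | h3
      · exact Finset.mem_union_left _ (Finset.mem_image.2 ⟨_, h2, h3.symm⟩)
      · exact Finset.mem_union_right _ (Finset.mem_image.2 ⟨_, h2, h3.symm⟩)
  have h2 := Finset.card_le_card h1
  have h3 := Finset.card_insert_le (0 : ℤ) (((absSet A).image fun x : ℕ => (x : ℤ)) ∪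
      ((absSet A).image fun x : ℕ => -(x : ℤ)))
  have h4 := Finset.card_union_le ((absSet A).image fun x : ℕ => (x : ℤ))
    ((absSet A).image fun x : ℕ => -(x : ℤ))
  have h5 := Finset.card_image_le (s := absSet A) (f := fun x : ℕ => (x : ℤ))
  have h6 := Finset.card_image_le (s := absSet A) (f := fun x : ℕ => -(x : ℤ))
  omega

lemma absSet_pos {A : Finset ℤ} (hA : ∃ a ∈ A, a ≠ 0) : 1 ≤ #(absSet A) := by
  obtain ⟨a, ha, h0⟩ := hA
  exact Finset.card_pos.2 ⟨a.natAbs, Finset.mem_image_of_mem _ (Finset.mem_erase.2 ⟨h0, ha⟩)⟩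

lemma card_products (A B : Finset ℤ) :
    #((absSet A ×ˢ absSet B).image fun s => s.1 * s.2) ≤ #(A * B) := by
  classical
  have h1 : ((absSet A ×ˢ absSet B).image fun s => s.1 * s.2) ⊆ (A * B).image Int.natAbs := by
    intro v hv
    obtain ⟨⟨x, z⟩, hs, rfl⟩ := Finset.mem_image.1 hv
    obtain ⟨hx, hz⟩ := Finset.mem_product.1 hs
    obtain ⟨_, a, ha, ha'⟩ := mem_absSet hx
    obtain ⟨_, b, hb, hb'⟩ := mem_absSet hz
    refine Finset.mem_image.2 ⟨a * b, Finset.mul_mem_mul ha hb, ?_⟩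
    rw [Int.natAbs_mul, ha', hb']
  exact (Finset.card_le_card h1).trans Finset.card_image_le

/-- The bound for two sets of integers. -/
theorem ints (ε : ℝ) (hε : 0 < ε) (E : ℕ) : ∃ C : ℝ, 1 ≤ C ∧ ∀ (A B : Finset ℤ) (H L : ℕ)
    (colour : ℕ → ℕ), (∃ a ∈ A, a ≠ 0) → (∃ b ∈ B, b ≠ 0) → 1 ≤ H → H ≤ #A ^ E →
    (∀ x ∈ absSet A, ∀ y ∈ absSet A, colour x = colour y → max x y ≤ H * Nat.gcd x y) →
    (∀ v : ℕ, #(((absSet A).filter fun x => ∃ z ∈ absSet B, x * z = v).image colour) ≤ L) →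
    (#A * #B : ℝ) ≤ C * (#A * #B : ℝ) ^ ε * (L * #(A * B)) := by
  have hE : (0 : ℝ) < 2 * E + 1 := by positivity
  obtain ⟨C, hC, h⟩ := colours (ε / (2 * E + 1)) (by positivity)
  refine ⟨max 1 (9 * C), le_max_left _ _, fun A B H L colour hA hB hH hHE hcol hLv => ?_⟩
  set n := #A with hn
  set m := #(absSet A) with hm
  set n' := #B with hn'
  set m' := #(absSet B) with hm'
  have hnm := card_absSet A
  have hnm' := card_absSet B
  rw [← hn, ← hm] at hnm
  rw [← hn', ← hm'] at hnm'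
  have hm1 : 1 ≤ m := absSet_pos hA
  have hm1' : 1 ≤ m' := absSet_pos hB
  have hmn : m ≤ n := by
    rw [hm, hn]
    exact Finset.card_image_le.trans (Finset.card_le_card (Finset.erase_subset _ _))
  have hmn' : m' ≤ n' := by
    rw [hm', hn']
    exact Finset.card_image_le.trans (Finset.card_le_card (Finset.erase_subset _ _))
  have h1 := h H L (absSet A) (absSet B) colour hH (fun x hx => (mem_absSet hx).1)
    (fun x hx => (mem_absSet hx).1) hcol hLv (absSet A ×ˢ absSet B) (Finset.Subset.refl _)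
  rw [Finset.card_product, ← hm, ← hm'] at h1
  have hP : (#((absSet A ×ˢ absSet B).image fun s => s.1 * s.2) : ℝ) ≤ #(A * B) := by
    exact_mod_cast card_products A B
  have hr1 : (1 : ℝ) ≤ m := by exact_mod_cast hm1
  have hr1' : (1 : ℝ) ≤ m' := by exact_mod_cast hm1'
  have hrn : (1 : ℝ) ≤ n := by exact_mod_cast hm1.trans hmn
  have hrn' : (1 : ℝ) ≤ n' := by exact_mod_cast hm1'.trans hmn'
  have h2 : (((H : ℝ) * m) * (H * m')) ^ (ε / (2 * E + 1)) ≤ ((n : ℝ) * n') ^ ε := by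
    have h3 : ((H : ℝ) * m) * (H * m') ≤ ((n : ℝ) * n') ^ (2 * (E : ℝ) + 1) := by
      have h4 : (H * m) * (H * m') ≤ (n * n') ^ (2 * E + 1) := by
        have h5 : n ^ E ≤ (n * n') ^ E :=
          Nat.pow_le_pow_left (Nat.le_mul_of_pos_right _ (hm1'.trans hmn')) _
        calc (H * m) * (H * m') = H * H * (m * m') := by ring
          _ ≤ (n * n') ^ E * (n * n') ^ E * (n * n') :=
            Nat.mul_le_mul (Nat.mul_le_mul (hHE.trans h5) (hHE.trans h5)) (Nat.mul_le_mul hmn hmn')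
          _ = _ := by ring
      have h5 : ((n : ℝ) * n') ^ (2 * (E : ℝ) + 1) = (((n * n') ^ (2 * E + 1) : ℕ) : ℝ) := by
        push_cast
        rw [← Real.rpow_natCast]
        push_cast
        rfl
      rw [h5]
      exact_mod_cast h4
    calc (((H : ℝ) * m) * (H * m')) ^ (ε / (2 * E + 1))
        ≤ (((n : ℝ) * n') ^ (2 * (E : ℝ) + 1)) ^ (ε / (2 * E + 1)) :=
          Real.rpow_le_rpow (by positivity) h3 (by positivity)
      _ = ((n : ℝ) * n') ^ ε := by
          rw [← Real.rpow_mul (by positivity)]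
          congr 1
          field_simp
  have h3 : (m : ℝ) * m' ≤ C * ((n : ℝ) * n') ^ ε * (L * #(A * B)) := by
    have h4 : ((m : ℝ) * m') * ((m : ℝ) * m') ≤
        (C * ((n : ℝ) * n') ^ ε * (L * #(A * B))) * ((m : ℝ) * m') := by
      calc ((m : ℝ) * m') * ((m : ℝ) * m') = ((m * m' : ℕ) : ℝ) ^ 2 := by push_cast; ring
        _ ≤ C * (((H : ℝ) * m) * (H * m')) ^ (ε / (2 * E + 1)) * (L * ((m : ℝ) * m')) *
            #((absSet A ×ˢ absSet B).image fun s => s.1 * s.2) := h1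
        _ ≤ C * ((n : ℝ) * n') ^ ε * (L * ((m : ℝ) * m')) * #(A * B) := by
            gcongr
        _ = _ := by ring
    exact le_of_mul_le_mul_right h4 (by positivity)
  have h4 : (n : ℝ) ≤ 3 * m := by
    have : n ≤ 3 * m := by omega
    exact_mod_cast this
  have h4' : (n' : ℝ) ≤ 3 * m' := by
    have : n' ≤ 3 * m' := by omega
    exact_mod_cast this
  calc (n : ℝ) * n' ≤ (3 * m) * (3 * m') := mul_le_mul h4 h4' (by positivity) (by positivity)
    _ = 9 * (m * m') := by ring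
    _ ≤ 9 * (C * ((n : ℝ) * n') ^ ε * (L * #(A * B))) := by linarith
    _ = (9 * C) * ((n : ℝ) * n') ^ ε * (L * #(A * B)) := by ring
    _ ≤ max 1 (9 * C) * ((n : ℝ) * n') ^ ε * (L * #(A * B)) := by
        gcongr
        exact le_max_right _ _

/-- Few dilates times an arbitrary set. -/
theorem dilates (ε : ℝ) (hε : 0 < ε) (D : ℕ) : ∃ C : ℝ, 1 ≤ C ∧ ∀ (A B : Finset ℤ) (Λ : Finset ℚ),
    (∃ a ∈ A, a ≠ 0) → (∃ b ∈ B, b ≠ 0) →
    (∀ a ∈ A, ∃ q ∈ Λ, ∃ b : ℤ, |b| ≤ (#A : ℤ) ^ D ∧ (a : ℚ) = q * b) →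
    (#A * #B : ℝ) ≤ C * (#A * #B : ℝ) ^ ε * (#Λ * #(A * B)) := by
  classical
  obtain ⟨C, hC, h⟩ := ints ε hε D
  refine ⟨C, hC, fun A B Λ hA hB hcov => ?_⟩
  set N := #A ^ D with hN
  have hApos : 1 ≤ #A := by
    obtain ⟨a, ha, _⟩ := hA
    exact Finset.card_pos.2 ⟨a, ha⟩
  have hN1 : 1 ≤ N := Nat.one_le_pow _ _ hApos
  have hex : ∀ x : ℕ, ∃ (q : ℚ) (b : ℤ), x ∈ absSet A → q ∈ Λ ∧ b.natAbs ≤ N ∧ (x : ℚ) = q * b := by
    intro x
    by_cases hx : x ∈ absSet A
    · obtain ⟨_, a, ha, rfl⟩ := mem_absSet hx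
      obtain ⟨q, hq, b, hb, hab⟩ := hcov a ha
      have hb' : b.natAbs ≤ N := by
        have h1 : ((b.natAbs : ℕ) : ℤ) ≤ ((N : ℕ) : ℤ) := by
          rw [Int.natCast_natAbs, hN]
          push_cast
          exact hb
        exact_mod_cast h1
      rcases le_total 0 a with h0 | h0
      · refine ⟨q, b, fun _ => ⟨hq, hb', ?_⟩⟩
        rw [← hab]
        have h1 : ((a.natAbs : ℕ) : ℤ) = a := Int.natAbs_of_nonneg h0
        have h2 : ((a.natAbs : ℕ) : ℚ) = (((a.natAbs : ℕ) : ℤ) : ℚ) := (Int.cast_natCast _).symm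
        rw [h2, h1]
      · refine ⟨q, -b, fun _ => ⟨hq, by rw [Int.natAbs_neg]; exact hb', ?_⟩⟩
        have h1 : ((a.natAbs : ℕ) : ℤ) = -a := Int.ofNat_natAbs_of_nonpos h0
        have h2 : ((a.natAbs : ℕ) : ℚ) = (((a.natAbs : ℕ) : ℤ) : ℚ) := (Int.cast_natCast _).symm
        rw [h2, h1]
        push_cast
        rw [hab]
        ring
    · exact ⟨0, 0, fun h' => absurd h' hx⟩
  choose q b hqb using hex
  let colour : ℕ → ℕ := fun x => Encodable.encode (q x)
  have key : ∀ x ∈ absSet A, ∀ y ∈ absSet A, q x = q y → x ≤ N * Nat.gcd x y := by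
    intro x hx y hy hxy
    have hx0 := (mem_absSet hx).1
    have hy0 := (mem_absSet hy).1
    obtain ⟨_, hbx, hx1⟩ := hqb x hx
    obtain ⟨_, hby, hy1⟩ := hqb y hy
    have h1 : (x : ℤ) * b y = y * b x := by
      have h2 : (x : ℚ) * b y = y * b x := by rw [hx1, hy1, hxy]; ring
      exact_mod_cast h2
    have h2 : x * (b y).natAbs = y * (b x).natAbs := by
      have h3 := congrArg Int.natAbs h1
      rwa [Int.natAbs_mul, Int.natAbs_mul, Int.natAbs_natCast, Int.natAbs_natCast] at h3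
    have hg : 0 < Nat.gcd x y := Nat.gcd_pos_of_pos_left _ (Nat.pos_of_ne_zero hx0)
    obtain ⟨x1, hx1'⟩ := Nat.gcd_dvd_left x y
    obtain ⟨y1, hy1'⟩ := Nat.gcd_dvd_right x y
    have hcop : Nat.Coprime x1 y1 := by
      have h3 := Nat.coprime_div_gcd_div_gcd hg
      have h4 : x / Nat.gcd x y = x1 := Nat.div_eq_of_eq_mul_right hg hx1'
      have h5 : y / Nat.gcd x y = y1 := Nat.div_eq_of_eq_mul_right hg hy1'
      rwa [h4, h5] at h3
    have h3 : x1 * (b y).natAbs = y1 * (b x).natAbs := by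
      apply Nat.eq_of_mul_eq_mul_left hg
      calc Nat.gcd x y * (x1 * (b y).natAbs) = (Nat.gcd x y * x1) * (b y).natAbs := by ring
        _ = x * (b y).natAbs := by rw [← hx1']
        _ = y * (b x).natAbs := h2
        _ = (Nat.gcd x y * y1) * (b x).natAbs := by rw [← hy1']
        _ = _ := by ring
    have h4 : x1 ∣ (b x).natAbs := by
      apply hcop.dvd_of_dvd_mul_left
      exact ⟨_, h3.symm⟩
    have hb0 : 0 < (b x).natAbs := by
      rcases Nat.eq_zero_or_pos (b x).natAbs with h5 | h5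
      · exfalso
        rw [Int.natAbs_eq_zero.1 h5] at hx1
        apply hx0
        have : (x : ℚ) = 0 := by rw [hx1]; simp
        exact_mod_cast this
      · exact h5
    have h5 : x1 ≤ N := (Nat.le_of_dvd hb0 h4).trans hbx
    calc x = Nat.gcd x y * x1 := hx1'
      _ ≤ Nat.gcd x y * N := Nat.mul_le_mul_left _ h5
      _ = _ := Nat.mul_comm _ _
  exact h A B N (#Λ) colour hA hB hN1 le_rfl (by
      intro x hx y hy hxy
      have h1 : q x = q y := Encodable.encode_injective hxy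
      refine max_le (key x hx y hy h1) ?_
      rw [Nat.gcd_comm]
      exact key y hy x hx h1.symm) (by
      intro v
      refine (Finset.card_le_card (t := Λ.image fun p => Encodable.encode p) ?_).trans
        Finset.card_image_le
      intro p hp
      obtain ⟨x, hx, rfl⟩ := Finset.mem_image.1 hp
      exact Finset.mem_image_of_mem _ (hqb x (Finset.mem_filter.1 hx).1).1)

/-- The set of the products `a_1 ⋯ a_k` with `a_i ∈ A_i`. -/
def prodset {k : ℕ} (A : Fin k → Finset ℤ) : Finset ℤ :=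
  (Fintype.piFinset A).image fun f => ∏ i, f i

lemma prodset_succ {k : ℕ} (A : Fin (k + 1) → Finset ℤ) :
    A 0 * prodset (fun i : Fin k => A i.succ) ⊆ prodset A := by
  intro v hv
  obtain ⟨a, ha, w, hw, rfl⟩ := Finset.mem_mul.1 hv
  obtain ⟨f, hf, rfl⟩ := Finset.mem_image.1 hw
  refine Finset.mem_image.2 ⟨Fin.cons a f, ?_, ?_⟩
  · rw [Fintype.mem_piFinset] at hf ⊢
    intro i
    refine Fin.cases ?_ (fun j => ?_) i
    · exact ha
    · exact hf j
  · rw [Fin.prod_univ_succ]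
    rfl

lemma card_prodset_le {k : ℕ} (A : Fin k → Finset ℤ) : #(prodset A) ≤ ∏ i, #(A i) := by
  unfold prodset
  refine Finset.card_image_le.trans ?_
  rw [Fintype.card_piFinset]

lemma prodset_ne_zero {k : ℕ} (A : Fin k → Finset ℤ) (hA : ∀ i, ∃ a ∈ A i, a ≠ 0) :
    ∃ v ∈ prodset A, v ≠ 0 := by
  choose a ha h0 using hA
  exact ⟨∏ i, a i, Finset.mem_image_of_mem _ (Fintype.mem_piFinset.2 ha),
    Finset.prod_ne_zero_iff.2 fun i _ => h0 i⟩

/-- Induction on the number of factors. -/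
theorem tuple (ε C : ℝ) (hε : 0 < ε) (hC : 1 ≤ C) (D : ℕ)
    (hD : ∀ (A B : Finset ℤ) (Λ : Finset ℚ), (∃ a ∈ A, a ≠ 0) → (∃ b ∈ B, b ≠ 0) →
      (∀ a ∈ A, ∃ q ∈ Λ, ∃ b : ℤ, |b| ≤ (#A : ℤ) ^ D ∧ (a : ℚ) = q * b) →
      (#A * #B : ℝ) ≤ C * (#A * #B : ℝ) ^ ε * (#Λ * #(A * B))) (T : ℝ) :
    ∀ (k : ℕ) (A : Fin k → Finset ℤ) (B : Finset ℤ) (Λ : Fin k → Finset ℚ),
    (∀ i, ∃ a ∈ A i, a ≠ 0) → (∃ b ∈ B, b ≠ 0) →
    (∀ i, ∀ a ∈ A i, ∃ q ∈ Λ i, ∃ b : ℤ, |b| ≤ (#(A i) : ℤ) ^ D ∧ (a : ℚ) = q * b) →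
    (∏ i, (#(A i) : ℝ)) * #B ≤ T →
    (∏ i, (#(A i) : ℝ)) * #B ≤ (C * T ^ ε) ^ k * ((∏ i, (#(Λ i) : ℝ)) * #(prodset A * B)) := by
  intro k
  induction k with
  | zero =>
    intro A B Λ hA hB hcov hT
    have h1 : prodset A * B = B := by
      have h2 : prodset A = {1} := by
        unfold prodset
        ext v
        simp
      rw [h2, Finset.singleton_one, one_mul]
    rw [h1]
    simp
  | succ k ih =>
    intro A B Λ hA hB hcov hT
    set A' : Fin k → Finset ℤ := fun i => A i.succ with hA'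
    set B' : Finset ℤ := prodset A' * B with hB'
    have hcard : ∀ i, (1 : ℝ) ≤ #(A i) := by
      intro i
      obtain ⟨a, ha, _⟩ := hA i
      have : 1 ≤ #(A i) := Finset.card_pos.2 ⟨a, ha⟩
      exact_mod_cast this
    have hB'0 : ∃ b ∈ B', b ≠ 0 := by
      obtain ⟨v, hv, hv0⟩ := prodset_ne_zero A' fun i => hA i.succ
      obtain ⟨b, hb, hb0⟩ := hB
      exact ⟨v * b, Finset.mul_mem_mul hv hb, mul_ne_zero hv0 hb0⟩
    have hB'le : (#B' : ℝ) ≤ (∏ i, (#(A' i) : ℝ)) * #B := by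
      have h1 : #B' ≤ (∏ i, #(A' i)) * #B :=
        Finset.card_mul_le.trans (Nat.mul_le_mul_right _ (card_prodset_le A'))
      exact_mod_cast h1
    have hsplit : (∏ i, (#(A i) : ℝ)) = #(A 0) * ∏ i, (#(A' i) : ℝ) := Fin.prod_univ_succ _
    have hsplitΛ : (∏ i, (#(Λ i) : ℝ)) = #(Λ 0) * ∏ i : Fin k, (#(Λ i.succ) : ℝ) :=
      Fin.prod_univ_succ _
    have hpos' : 0 ≤ (∏ i, (#(A' i) : ℝ)) * #B :=
      mul_nonneg (Finset.prod_nonneg fun _ _ => Nat.cast_nonneg _) (Nat.cast_nonneg _)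
    have hT' : (∏ i, (#(A' i) : ℝ)) * #B ≤ T := by
      refine le_trans ?_ hT
      rw [hsplit, mul_assoc]
      exact le_mul_of_one_le_left hpos' (hcard 0)
    have h1 := ih A' B (fun i => Λ i.succ) (fun i => hA i.succ) hB (fun i => hcov i.succ) hT'
    rw [← hB'] at h1
    have h2 := hD (A 0) B' (Λ 0) (hA 0) hB'0 (hcov 0)
    have h3 : (#(A 0) * #B' : ℝ) ≤ T := by
      refine le_trans ?_ hT
      rw [hsplit, mul_assoc]
      exact mul_le_mul_of_nonneg_left hB'le (Nat.cast_nonneg _)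
    have h4 : (#(A 0 * B') : ℝ) ≤ #(prodset A * B) := by
      have h5 : A 0 * B' ⊆ prodset A * B := by
        rw [hB', ← mul_assoc]
        exact Finset.mul_subset_mul_right (prodset_succ A)
      exact_mod_cast Finset.card_le_card h5
    have hTpos : 0 ≤ T := le_trans (mul_nonneg (Nat.cast_nonneg _) (Nat.cast_nonneg _)) h3
    have hTε : 0 ≤ T ^ ε := Real.rpow_nonneg hTpos _
    have hC0 : 0 ≤ C := by linarith
    have h5 : (#(A 0) * #B' : ℝ) ≤ C * T ^ ε * (#(Λ 0) * #(prodset A * B)) := by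
      refine h2.trans ?_
      have h6 : (#(A 0) * #B' : ℝ) ^ ε ≤ T ^ ε :=
        Real.rpow_le_rpow (mul_nonneg (Nat.cast_nonneg _) (Nat.cast_nonneg _)) h3 hε.le
      exact mul_le_mul (mul_le_mul_of_nonneg_left h6 hC0)
        (mul_le_mul_of_nonneg_left h4 (Nat.cast_nonneg _))
        (mul_nonneg (Nat.cast_nonneg _) (Nat.cast_nonneg _)) (mul_nonneg hC0 hTε)
    have h7 : 0 ≤ (C * T ^ ε) ^ k * (∏ i : Fin k, (#(Λ i.succ) : ℝ)) :=
      mul_nonneg (pow_nonneg (mul_nonneg hC0 hTε) _) (Finset.prod_nonneg fun _ _ => Nat.cast_nonneg _)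
    calc (∏ i, (#(A i) : ℝ)) * #B = #(A 0) * ((∏ i, (#(A' i) : ℝ)) * #B) := by
          rw [hsplit, mul_assoc]
      _ ≤ #(A 0) * ((C * T ^ ε) ^ k * ((∏ i : Fin k, (#(Λ i.succ) : ℝ)) * #B')) :=
          mul_le_mul_of_nonneg_left h1 (Nat.cast_nonneg _)
      _ = (C * T ^ ε) ^ k * (∏ i : Fin k, (#(Λ i.succ) : ℝ)) * (#(A 0) * #B') := by ring
      _ ≤ (C * T ^ ε) ^ k * (∏ i : Fin k, (#(Λ i.succ) : ℝ)) *
          (C * T ^ ε * (#(Λ 0) * #(prodset A * B))) :=
          mul_le_mul_of_nonneg_left h5 h7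
      _ = (C * T ^ ε) ^ (k + 1) * ((∏ i, (#(Λ i) : ℝ)) * #(prodset A * B)) := by
          rw [hsplitΛ, pow_succ]; ring

/-- **Products of sets covered by few dilates with an arbitrary set.** -/
theorem dilatesK (k : ℕ) (ε : ℝ) (hε : 0 < ε) (D : ℕ) : ∃ c : ℝ, 0 < c ∧
    ∀ (A : Fin k → Finset ℤ) (B : Finset ℤ) (Λ : Fin k → Finset ℚ),
    (∀ i, ∃ a ∈ A i, a ≠ 0) → (∃ b ∈ B, b ≠ 0) →
    (∀ i, ∀ a ∈ A i, ∃ q ∈ Λ i, ∃ b : ℤ, |b| ≤ (#(A i) : ℤ) ^ D ∧ (a : ℚ) = q * b) →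
    c * ((∏ i, (#(A i) : ℝ)) * #B) ^ (1 - ε) ≤ (∏ i, (#(Λ i) : ℝ)) * #(prodset A * B) := by
  have hk : (0 : ℝ) < k + 1 := by positivity
  obtain ⟨C, hC, h⟩ := dilates (ε / (k + 1)) (by positivity) D
  have hC0 : 0 < C := by linarith
  refine ⟨1 / C ^ k, by positivity, fun A B Λ hA hB hcov => ?_⟩
  set M : ℝ := (∏ i, (#(A i) : ℝ)) * #B with hM
  set X : ℝ := (∏ i, (#(Λ i) : ℝ)) * #(prodset A * B) with hX
  have h1 : M ≤ (C * M ^ (ε / (k + 1))) ^ k * X :=
    tuple (ε / (k + 1)) C (by positivity) hC D h M k A B Λ hA hB hcov le_rfl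
  have hX0 : 0 ≤ X :=
    mul_nonneg (Finset.prod_nonneg fun _ _ => Nat.cast_nonneg _) (Nat.cast_nonneg _)
  clear_value X
  have hM1 : 1 ≤ M := by
    have h2 : ∀ i, (1 : ℝ) ≤ #(A i) := by
      intro i
      obtain ⟨a, ha, _⟩ := hA i
      have : 1 ≤ #(A i) := Finset.card_pos.2 ⟨a, ha⟩
      exact_mod_cast this
    have h3 : (1 : ℝ) ≤ #B := by
      obtain ⟨b, hb, _⟩ := hB
      have : 1 ≤ #B := Finset.card_pos.2 ⟨b, hb⟩
      exact_mod_cast this
    have h4 : (1 : ℝ) ≤ ∏ i, (#(A i) : ℝ) := by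
      have h5 := Finset.prod_le_prod (s := Finset.univ) (f := fun _ : Fin k => (1 : ℝ))
        (g := fun i => (#(A i) : ℝ)) (fun _ _ => by norm_num) (fun i _ => h2 i)
      simpa using h5
    nlinarith
  have hM0 : 0 < M := by linarith
  have h2 : (M ^ (ε / (k + 1))) ^ k ≤ M ^ ε := by
    rw [← Real.rpow_natCast, ← Real.rpow_mul hM0.le]
    apply Real.rpow_le_rpow_of_exponent_le hM1
    rw [div_mul_eq_mul_div, div_le_iff₀ hk]
    nlinarith
  have h3 : M ≤ C ^ k * M ^ ε * X := by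
    refine h1.trans ?_
    rw [mul_pow]
    exact mul_le_mul_of_nonneg_right (mul_le_mul_of_nonneg_left h2 (by positivity)) hX0
  have h4 : M ^ (1 - ε) * M ^ ε = M := by
    rw [← Real.rpow_add hM0]
    simp
  have h5 : 0 < M ^ ε := by positivity
  have h6 : M ^ (1 - ε) ≤ C ^ k * X := by
    have h7 : M ^ (1 - ε) * M ^ ε ≤ (C ^ k * X) * M ^ ε := by
      rw [h4]; linarith
    exact le_of_mul_le_mul_right h7 h5
  calc 1 / C ^ k * M ^ (1 - ε) ≤ 1 / C ^ k * (C ^ k * X) :=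
        mul_le_mul_of_nonneg_left h6 (by positivity)
    _ = X := by rw [← mul_assoc, one_div, inv_mul_cancel₀ (by positivity), one_mul]

lemma prodset_nonempty {k : ℕ} {A : Finset ℤ} (hA : A.Nonempty) :
    1 ≤ #(prodset fun _ : Fin k => A) := by
  obtain ⟨a, ha⟩ := hA
  exact Finset.card_pos.2 ⟨∏ _i : Fin k, a,
    Finset.mem_image_of_mem _ (Fintype.mem_piFinset.2 fun _ => ha)⟩

/-- The product set of `k` copies of a set covered by few dilates. -/
theorem power (k : ℕ) (ε : ℝ) (hε : 0 < ε) (D : ℕ) : ∃ c : ℝ, 0 < c ∧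
    ∀ (A : Finset ℤ) (Λ : Finset ℚ), A.Nonempty →
    (∀ a ∈ A, ∃ q ∈ Λ, ∃ b : ℤ, |b| ≤ (#A : ℤ) ^ D ∧ (a : ℚ) = q * b) →
    c * (#A : ℝ) ^ ((k + 1 : ℕ) - ε) ≤ (#Λ : ℝ) ^ k * #(prodset fun _ : Fin (k + 1) => A) := by
  have hk : (0 : ℝ) < k + 1 := by positivity
  obtain ⟨c, hc, h⟩ := dilatesK k (ε / (k + 1)) (by positivity) D
  refine ⟨min 1 c, by positivity, fun A Λ hA hcov => ?_⟩
  have hΛ : (1 : ℝ) ≤ #Λ := by
    obtain ⟨a, ha⟩ := hA
    obtain ⟨q, hq, _⟩ := hcov a ha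
    have : 1 ≤ #Λ := Finset.card_pos.2 ⟨q, hq⟩
    exact_mod_cast this
  have hQ : (1 : ℝ) ≤ #(prodset fun _ : Fin (k + 1) => A) := by
    exact_mod_cast prodset_nonempty hA
  have hn1 : (1 : ℝ) ≤ #A := by exact_mod_cast hA.card_pos
  have hn0 : (0 : ℝ) < #A := by linarith
  by_cases h0 : ∃ a ∈ A, a ≠ 0
  · have h1 := h (fun _ => A) A (fun _ => Λ) (fun _ => h0) h0 (fun _ => hcov)
    rw [Finset.prod_const, Finset.prod_const, Finset.card_univ, Fintype.card_fin] at h1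
    have h2 : ((#A : ℝ) ^ k * #A) ^ (1 - ε / (k + 1)) = (#A : ℝ) ^ (((k + 1 : ℕ) : ℝ) - ε) := by
      rw [← pow_succ, ← Real.rpow_natCast, ← Real.rpow_mul hn0.le]
      congr 1
      push_cast
      field_simp
    rw [h2] at h1
    have h3 : (#((prodset fun _ : Fin k => A) * A) : ℝ) ≤ #(prodset fun _ : Fin (k + 1) => A) := by
      rw [mul_comm]
      exact_mod_cast Finset.card_le_card (prodset_succ fun _ : Fin (k + 1) => A)
    calc min 1 c * (#A : ℝ) ^ (((k + 1 : ℕ) : ℝ) - ε) ≤ c * (#A : ℝ) ^ (((k + 1 : ℕ) : ℝ) - ε) :=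
          mul_le_mul_of_nonneg_right (min_le_right _ _) (Real.rpow_nonneg hn0.le _)
      _ ≤ (#Λ : ℝ) ^ k * #((prodset fun _ : Fin k => A) * A) := h1
      _ ≤ _ := mul_le_mul_of_nonneg_left h3 (by positivity)
  · push Not at h0
    have h1 : A = {0} := by
      ext a
      rw [Finset.mem_singleton]
      refine ⟨h0 a, fun ha => ?_⟩
      obtain ⟨b, hb⟩ := hA
      rw [ha, ← h0 b hb]
      exact hb
    have h2 : (#A : ℝ) = 1 := by rw [h1]; simp
    rw [h2, Real.one_rpow, mul_one]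
    calc min 1 c ≤ 1 := min_le_left _ _
      _ ≤ (#Λ : ℝ) ^ k := one_le_pow₀ hΛ
      _ ≤ _ := le_mul_of_one_le_right (by positivity) hQ

lemma gcd_prod_dvd (s : ℕ) : ∀ {m : ℕ} (u : Fin m → ℕ),
    Nat.gcd s (∏ i, u i) ∣ ∏ i, Nat.gcd s (u i) := by
  intro m
  induction m with
  | zero => intro u; simp
  | succ m ih =>
    intro u
    rw [Fin.prod_univ_succ, Fin.prod_univ_succ]
    exact (Nat.gcd_mul_right_dvd_mul_gcd s _ _).trans (Nat.mul_dvd_mul_left _ (ih _))

lemma le_of_dvd_prod (s N : ℕ) {m : ℕ} (t b : Fin m → ℕ) (hs : 0 < s) (h : s ∣ ∏ i, t i * b i)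
    (hg : ∀ i, Nat.gcd s (t i) ≤ N) (hb : ∀ i, 0 < b i ∧ b i ≤ N) : s ≤ N ^ (2 * m) := by
  have h1 : s ∣ ∏ i, Nat.gcd s (t i * b i) := by
    have h2 := gcd_prod_dvd s fun i => t i * b i
    rwa [Nat.gcd_eq_left h] at h2
  have h2 : s ≤ ∏ i, Nat.gcd s (t i * b i) :=
    Nat.le_of_dvd (Finset.prod_pos fun i _ => Nat.gcd_pos_of_pos_left _ hs) h1
  refine h2.trans ?_
  calc ∏ i, Nat.gcd s (t i * b i) ≤ ∏ _i : Fin m, N * N := by
        apply Finset.prod_le_prod'
        intro i _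
        have h3 := Nat.gcd_mul_right_dvd_mul_gcd s (t i) (b i)
        have h4 : Nat.gcd s (t i * b i) ≤ Nat.gcd s (t i) * Nat.gcd s (b i) :=
          Nat.le_of_dvd (Nat.mul_pos (Nat.gcd_pos_of_pos_left _ hs)
            (Nat.gcd_pos_of_pos_left _ hs)) h3
        exact h4.trans (Nat.mul_le_mul (hg i)
          ((Nat.le_of_dvd (hb i).1 (Nat.gcd_dvd_right _ _)).trans (hb i).2))
    _ = N ^ (2 * m) := by
        rw [Finset.prod_const, Finset.card_univ, Fintype.card_fin, ← sq, ← pow_mul]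

/-- Multiples of the elements of a set with small greatest common divisors. -/
theorem multiples (k : ℕ) (ε : ℝ) (hε : 0 < ε) (D : ℕ) : ∃ c : ℝ, 0 < c ∧
    ∀ (A : Finset ℤ) (S : Set ℕ), A.Nonempty →
    (∀ s ∈ S, ∀ s' ∈ S, s ≠ s' → Nat.gcd s s' ≤ #A ^ D) →
    (∀ a ∈ A, ∃ s ∈ S, s ∣ a.natAbs ∧ a.natAbs ≤ s * #A ^ D) →
    c * (#A : ℝ) ^ ((k : ℝ) - ε) ≤ #(prodset fun _ : Fin k => A) := by
  classical
  set ε' : ℝ := ε / (k ^ 2 + 1) with hε'
  have hε'0 : 0 < ε' := by positivity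
  obtain ⟨C, hC, h⟩ := ints ε' hε'0 ((2 * k + 1) * D)
  have hC0 : 0 < C := by linarith
  refine ⟨min 1 (1 / (C * (k + 1)) ^ k), by positivity, fun A S hA hS hAS => ?_⟩
  set N := #A ^ D with hN
  have hN1 : 1 ≤ N := Nat.one_le_pow _ _ hA.card_pos
  have hn1 : (1 : ℝ) ≤ #A := by exact_mod_cast hA.card_pos
  have hn0 : (0 : ℝ) < #A := by linarith
  have hQ : ∀ j : ℕ, (1 : ℝ) ≤ #(prodset fun _ : Fin j => A) := by
    intro j
    exact_mod_cast prodset_nonempty hA
  by_cases h0 : ∃ a ∈ A, a ≠ 0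
  swap
  · push Not at h0
    have h1 : A = {0} := by
      ext a
      rw [Finset.mem_singleton]
      refine ⟨h0 a, fun ha => ?_⟩
      obtain ⟨b, hb⟩ := hA
      rw [ha, ← h0 b hb]
      exact hb
    have h2 : (#A : ℝ) = 1 := by rw [h1]; simp
    rw [h2, Real.one_rpow, mul_one]
    exact (min_le_left _ _).trans (hQ k)
  have hex : ∀ x : ℕ, ∃ s b : ℕ, x ∈ absSet A → s ∈ S ∧ x = s * b ∧ 0 < s ∧ 0 < b ∧ b ≤ N := by
    intro x
    by_cases hx : x ∈ absSet A
    · obtain ⟨hx0, a, ha, rfl⟩ := mem_absSet hx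
      obtain ⟨s, hs1, ⟨b, hb⟩, hs3⟩ := hAS a ha
      have hs0 : 0 < s := by
        rcases Nat.eq_zero_or_pos s with h1 | h1
        · rw [h1, Nat.zero_mul] at hb; exact absurd hb hx0
        · exact h1
      have hb0 : 0 < b := by
        rcases Nat.eq_zero_or_pos b with h1 | h1
        · rw [h1, Nat.mul_zero] at hb; exact absurd hb hx0
        · exact h1
      refine ⟨s, b, fun _ => ⟨hs1, hb, hs0, hb0, ?_⟩⟩
      rw [hb] at hs3
      exact Nat.le_of_mul_le_mul_left hs3 hs0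
    · exact ⟨0, 0, fun h' => absurd h' hx⟩
  choose s b hsb using hex
  let colour : ℕ → ℕ := fun x => if N ^ (2 * k) < s x then s x else 0
  -- the ratios of elements of the same colour
  have hcol : ∀ x ∈ absSet A, ∀ y ∈ absSet A, colour x = colour y →
      max x y ≤ N ^ (2 * k + 1) * Nat.gcd x y := by
    intro x hx y hy hxy
    obtain ⟨_, hx1, hx2, hx3, hx4⟩ := hsb x hx
    obtain ⟨_, hy1, hy2, hy3, hy4⟩ := hsb y hy
    have hx0 := (mem_absSet hx).1
    have hg : 0 < Nat.gcd x y := Nat.gcd_pos_of_pos_left _ (Nat.pos_of_ne_zero hx0)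
    have h6 : N ≤ N ^ (2 * k + 1) := by
      calc N = N ^ 1 := (pow_one N).symm
        _ ≤ N ^ (2 * k + 1) := Nat.pow_le_pow_right hN1 (by omega)
    by_cases h2 : N ^ (2 * k) < s x
    · have h3 : s y = s x := by
        simp only [colour, if_pos h2] at hxy
        by_cases h4 : N ^ (2 * k) < s y
        · rw [if_pos h4] at hxy; exact hxy.symm
        · rw [if_neg h4] at hxy; omega
      have h4 : s x ∣ Nat.gcd x y := Nat.dvd_gcd ⟨_, hx1⟩ ⟨b y, by rw [← h3]; exact hy1⟩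
      have h5 : s x ≤ Nat.gcd x y := Nat.le_of_dvd hg h4
      refine max_le ?_ ?_
      · calc x = s x * b x := hx1
          _ ≤ Nat.gcd x y * N ^ (2 * k + 1) := Nat.mul_le_mul h5 (hx4.trans h6)
          _ = _ := Nat.mul_comm _ _
      · calc y = s y * b y := hy1
          _ ≤ Nat.gcd x y * N ^ (2 * k + 1) := Nat.mul_le_mul (h3 ▸ h5) (hy4.trans h6)
          _ = _ := Nat.mul_comm _ _
    · have h3 : ¬ N ^ (2 * k) < s y := by
        intro h4
        simp only [colour, if_neg h2, if_pos h4] at hxy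
        omega
      have h4 : x ≤ N ^ (2 * k + 1) := by
        calc x = s x * b x := hx1
          _ ≤ N ^ (2 * k) * N := Nat.mul_le_mul (not_lt.1 h2) hx4
          _ = _ := (pow_succ _ _).symm
      have h5 : y ≤ N ^ (2 * k + 1) := by
        calc y = s y * b y := hy1
          _ ≤ N ^ (2 * k) * N := Nat.mul_le_mul (not_lt.1 h3) hy4
          _ = _ := (pow_succ _ _).symm
      exact max_le (h4.trans (Nat.le_mul_of_pos_right _ hg))
        (h5.trans (Nat.le_mul_of_pos_right _ hg))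
  -- the number of colours
  have hL : ∀ j : ℕ, j + 1 ≤ k → ∀ v : ℕ, #(((absSet A).filter fun x =>
      ∃ z ∈ absSet (prodset fun _ : Fin j => A), x * z = v).image colour) ≤ k + 1 := by
    intro j hj v
    rcases (((absSet A).filter fun x =>
      ∃ z ∈ absSet (prodset fun _ : Fin j => A), x * z = v)).eq_empty_or_nonempty with
      h1 | ⟨x₀, hx₀⟩
    · rw [h1]; simp
    obtain ⟨hx₀A, z₀, hz₀A, hv⟩ := Finset.mem_filter.1 hx₀
    obtain ⟨hz0, w, hw, hwz⟩ := mem_absSet hz₀A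
    obtain ⟨f, hf, hfw⟩ := Finset.mem_image.1 hw
    rw [Fintype.mem_piFinset] at hf
    let g : Fin (j + 1) → ℕ := Fin.cons x₀ fun i => (f i).natAbs
    have hprod : ∏ i, g i = v := by
      rw [Fin.prod_univ_succ, ← hv, ← hwz, ← hfw]
      congr 1
      simp only [g, Fin.cons_succ]
      exact (map_prod Int.natAbsHom f Finset.univ).symm
    have hfi : ∀ i, f i ≠ 0 := by
      intro i hi
      apply hz0
      rw [← hwz, ← hfw, Finset.prod_eq_zero (Finset.mem_univ i) hi]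
      rfl
    have hg : ∀ i, g i ∈ absSet A := by
      intro i
      refine Fin.cases ?_ (fun i => ?_) i
      · exact hx₀A
      · exact Finset.mem_image_of_mem _ (Finset.mem_erase.2 ⟨hfi i, hf i⟩)
    have h2 : (((absSet A).filter fun x =>
        ∃ z ∈ absSet (prodset fun _ : Fin j => A), x * z = v).image colour) ⊆
        insert 0 (Finset.univ.image fun i => s (g i)) := by
      intro p hp
      obtain ⟨x, hx, rfl⟩ := Finset.mem_image.1 hp
      obtain ⟨hxA, z, hzA, hxz⟩ := Finset.mem_filter.1 hx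
      obtain ⟨hxS, hx1, hx2, hx3, hx4⟩ := hsb x hxA
      by_cases h3 : N ^ (2 * k) < s x
      · simp only [colour, if_pos h3]
        by_contra hcon
        rw [Finset.mem_insert, not_or] at hcon
        have h4 : ∀ i, Nat.gcd (s x) (s (g i)) ≤ N := by
          intro i
          apply hS _ hxS _ (hsb _ (hg i)).1
          intro h5
          exact hcon.2 (Finset.mem_image.2 ⟨i, Finset.mem_univ _, h5.symm⟩)
        have h5 : s x ∣ ∏ i, s (g i) * b (g i) := by
          have h6 : ∏ i, s (g i) * b (g i) = v := by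
            rw [← hprod]
            exact Finset.prod_congr rfl fun i _ => (hsb _ (hg i)).2.1.symm
          rw [h6]
          exact (Dvd.intro _ hx1.symm).trans ⟨z, hxz.symm⟩
        have h7 := le_of_dvd_prod (s x) N (fun i => s (g i)) (fun i => b (g i)) hx2 h5 h4
          fun i => (hsb _ (hg i)).2.2.2
        have h8 : N ^ (2 * (j + 1)) ≤ N ^ (2 * k) := Nat.pow_le_pow_right hN1 (by omega)
        omega
      · have h4 : colour x = 0 := if_neg h3
        rw [h4]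
        exact Finset.mem_insert_self _ _
    refine (Finset.card_le_card h2).trans ((Finset.card_insert_le _ _).trans ?_)
    have h9 : #(Finset.univ.image fun i => s (g i)) ≤ j + 1 := by
      refine Finset.card_image_le.trans ?_
      rw [Finset.card_univ, Fintype.card_fin]
    omega
  -- induction
  set T : ℝ := (#A : ℝ) ^ k with hT
  have hT0 : 0 ≤ T := by positivity
  have hTε : 0 ≤ T ^ ε' := Real.rpow_nonneg hT0 _
  have hind : ∀ j : ℕ, j ≤ k →
      (#A : ℝ) ^ j ≤ (C * (k + 1) * T ^ ε') ^ j * #(prodset fun _ : Fin j => A) := by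
    intro j
    induction j with
    | zero =>
      intro _
      simpa using hQ 0
    | succ j ih =>
      intro hj
      have h1 := ih (by omega)
      obtain ⟨v, hv, hv0⟩ := prodset_ne_zero (fun _ : Fin j => A) fun _ => h0
      have h2 := h A (prodset fun _ : Fin j => A) (N ^ (2 * k + 1)) (k + 1) colour h0 ⟨v, hv, hv0⟩
        (Nat.one_le_pow _ _ hN1) (by rw [hN, ← pow_mul, Nat.mul_comm D]) hcol (hL j hj)
      have h3 : (#A * #(prodset fun _ : Fin j => A) : ℝ) ≤ T := by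
        have h4 : #(prodset fun _ : Fin j => A) ≤ #A ^ j := by
          refine (card_prodset_le _).trans ?_
          rw [Finset.prod_const, Finset.card_univ, Fintype.card_fin]
        have h5 : #A * #(prodset fun _ : Fin j => A) ≤ #A ^ k := by
          calc #A * #(prodset fun _ : Fin j => A) ≤ #A * #A ^ j := Nat.mul_le_mul_left _ h4
            _ = #A ^ (j + 1) := by rw [pow_succ, Nat.mul_comm]
            _ ≤ #A ^ k := Nat.pow_le_pow_right hA.card_pos hj
        rw [hT]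
        exact_mod_cast h5
      have h4 : (#(A * prodset fun _ : Fin j => A) : ℝ) ≤ #(prodset fun _ : Fin (j + 1) => A) := by
        exact_mod_cast Finset.card_le_card (prodset_succ fun _ : Fin (j + 1) => A)
      have h5 : (#A * #(prodset fun _ : Fin j => A) : ℝ) ≤
          (C * (k + 1) * T ^ ε') * #(prodset fun _ : Fin (j + 1) => A) := by
        have h6 : (#A * #(prodset fun _ : Fin j => A) : ℝ) ^ ε' ≤ T ^ ε' :=
          Real.rpow_le_rpow (mul_nonneg (Nat.cast_nonneg _) (Nat.cast_nonneg _)) h3 hε'0.le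
        push_cast at h2
        calc (#A * #(prodset fun _ : Fin j => A) : ℝ)
            ≤ C * (#A * #(prodset fun _ : Fin j => A) : ℝ) ^ ε' *
              (((k : ℝ) + 1) * #(A * prodset fun _ : Fin j => A)) := h2
          _ ≤ C * T ^ ε' * (((k : ℝ) + 1) * #(prodset fun _ : Fin (j + 1) => A)) :=
              mul_le_mul (mul_le_mul_of_nonneg_left h6 hC0.le)
                (mul_le_mul_of_nonneg_left h4 (by positivity))
                (mul_nonneg (by positivity) (Nat.cast_nonneg _)) (mul_nonneg hC0.le hTε)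
          _ = _ := by ring
      have hW : 0 ≤ (C * (k + 1) * T ^ ε') ^ j :=
        pow_nonneg (mul_nonneg (by positivity) hTε) _
      calc (#A : ℝ) ^ (j + 1) = #A * (#A : ℝ) ^ j := by rw [pow_succ, mul_comm]
        _ ≤ #A * ((C * (k + 1) * T ^ ε') ^ j * #(prodset fun _ : Fin j => A)) :=
            mul_le_mul_of_nonneg_left h1 (Nat.cast_nonneg _)
        _ = (C * (k + 1) * T ^ ε') ^ j * (#A * #(prodset fun _ : Fin j => A)) := by ring
        _ ≤ (C * (k + 1) * T ^ ε') ^ j *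
            ((C * (k + 1) * T ^ ε') * #(prodset fun _ : Fin (j + 1) => A)) :=
            mul_le_mul_of_nonneg_left h5 hW
        _ = _ := by rw [pow_succ]; ring
  have h1 := hind k le_rfl
  have h2 : (T ^ ε') ^ k ≤ (#A : ℝ) ^ ε := by
    rw [hT, ← Real.rpow_natCast (#A : ℝ) k, ← Real.rpow_mul hn0.le, ← Real.rpow_natCast,
      ← Real.rpow_mul hn0.le]
    apply Real.rpow_le_rpow_of_exponent_le hn1
    have h3 : (k : ℝ) * ε' * k = ε * (k ^ 2 / (k ^ 2 + 1)) := by rw [hε']; ring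
    rw [h3]
    have h4 : (k : ℝ) ^ 2 / (k ^ 2 + 1) ≤ 1 := by
      rw [div_le_one (by positivity)]; linarith
    nlinarith
  set Q : ℝ := (#(prodset fun _ : Fin k => A) : ℝ) with hQdef
  have hQ1 : 1 ≤ Q := hQ k
  clear_value Q
  have h3 : T ≤ (C * (k + 1)) ^ k * (#A : ℝ) ^ ε * Q := by
    refine h1.trans ?_
    rw [mul_pow]
    exact mul_le_mul_of_nonneg_right (mul_le_mul_of_nonneg_left h2 (by positivity)) (by linarith)
  have h4 : (#A : ℝ) ^ ((k : ℝ) - ε) * (#A : ℝ) ^ ε = T := by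
    rw [← Real.rpow_add hn0, hT, ← Real.rpow_natCast]
    congr 1
    ring
  have h5 : 0 < (#A : ℝ) ^ ε := by positivity
  have h6 : (#A : ℝ) ^ ((k : ℝ) - ε) ≤ (C * (k + 1)) ^ k * Q := by
    have h7 : (#A : ℝ) ^ ((k : ℝ) - ε) * (#A : ℝ) ^ ε ≤ ((C * (k + 1)) ^ k * Q) * (#A : ℝ) ^ ε := by
      rw [h4]; linarith
    exact le_of_mul_le_mul_right h7 h5
  have hW0 : 0 < (C * ((k : ℝ) + 1)) ^ k := by positivity
  calc min 1 (1 / (C * (k + 1)) ^ k) * (#A : ℝ) ^ ((k : ℝ) - ε)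
      ≤ 1 / (C * (k + 1)) ^ k * ((C * (k + 1)) ^ k * Q) :=
        mul_le_mul (min_le_right _ _) h6 (Real.rpow_nonneg hn0.le _) (by positivity)
    _ = Q := by rw [← mul_assoc, one_div, inv_mul_cancel₀ hW0.ne', one_mul]

/-- Multiples of the elements of a short interval. -/
theorem interval (k : ℕ) (ε : ℝ) (hε : 0 < ε) (D : ℕ) : ∃ c : ℝ, 0 < c ∧
    ∀ (A : Finset ℤ) (M : ℕ), A.Nonempty →
    (∀ a ∈ A, ∃ s : ℕ, M ≤ s ∧ s ≤ M + #A ^ D ∧ s ∣ a.natAbs ∧ a.natAbs ≤ s * #A ^ D) →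
    c * (#A : ℝ) ^ ((k : ℝ) - ε) ≤ #(prodset fun _ : Fin k => A) := by
  obtain ⟨c, hc, h⟩ := multiples k ε hε D
  refine ⟨c, hc, fun A M hA hAS => h A (Set.Icc M (M + #A ^ D)) hA ?_ ?_⟩
  · intro s hs s' hs' hne
    obtain ⟨h1, h2⟩ := hs
    obtain ⟨h3, h4⟩ := hs'
    rcases lt_or_gt_of_ne hne with h5 | h5
    · have h6 : Nat.gcd s s' ∣ s' - s := Nat.dvd_sub (Nat.gcd_dvd_right s s') (Nat.gcd_dvd_left s s')
      have h7 := Nat.le_of_dvd (by omega) h6
      omega
    · have h6 : Nat.gcd s s' ∣ s - s' := Nat.dvd_sub (Nat.gcd_dvd_left s s') (Nat.gcd_dvd_right s s')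
      have h7 := Nat.le_of_dvd (by omega) h6
      omega
  · intro a ha
    obtain ⟨s, h1, h2, h3, h4⟩ := hAS a ha
    exact ⟨s, ⟨h1, h2⟩, h3, h4⟩

/-- **Iterated products of sets of integers covered by dilates of short intervals.** -/
theorem result :
    -- 1. products of sets covered by few dilates with an arbitrary set
    (∀ (k : ℕ) (ε : ℝ), 0 < ε → ∀ D : ℕ, ∃ c : ℝ, 0 < c ∧
      ∀ (A : Fin k → Finset ℤ) (B : Finset ℤ) (Λ : Fin k → Finset ℚ),
      (∀ i, ∃ a ∈ A i, a ≠ 0) → (∃ b ∈ B, b ≠ 0) →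
      (∀ i, ∀ a ∈ A i, ∃ q ∈ Λ i, ∃ b : ℤ, |b| ≤ (#(A i) : ℤ) ^ D ∧ (a : ℚ) = q * b) →
      c * ((∏ i, (#(A i) : ℝ)) * #B) ^ (1 - ε) ≤ (∏ i, (#(Λ i) : ℝ)) * #(prodset A * B)) ∧
    -- 2. the product of `k + 1` copies of a set covered by few dilates
    (∀ (k : ℕ) (ε : ℝ), 0 < ε → ∀ D : ℕ, ∃ c : ℝ, 0 < c ∧
      ∀ (A : Finset ℤ) (Λ : Finset ℚ), A.Nonempty →
      (∀ a ∈ A, ∃ q ∈ Λ, ∃ b : ℤ, |b| ≤ (#A : ℤ) ^ D ∧ (a : ℚ) = q * b) →
      c * (#A : ℝ) ^ ((k + 1 : ℕ) - ε) ≤ (#Λ : ℝ) ^ k * #(prodset fun _ : Fin (k + 1) => A)) ∧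
    -- 3. multiples of the elements of a set with small greatest common divisors
    (∀ (k : ℕ) (ε : ℝ), 0 < ε → ∀ D : ℕ, ∃ c : ℝ, 0 < c ∧
      ∀ (A : Finset ℤ) (S : Set ℕ), A.Nonempty →
      (∀ s ∈ S, ∀ s' ∈ S, s ≠ s' → Nat.gcd s s' ≤ #A ^ D) →
      (∀ a ∈ A, ∃ s ∈ S, s ∣ a.natAbs ∧ a.natAbs ≤ s * #A ^ D) →
      c * (#A : ℝ) ^ ((k : ℝ) - ε) ≤ #(prodset fun _ : Fin k => A)) ∧
    -- 4. multiples of the elements of a short interval
    (∀ (k : ℕ) (ε : ℝ), 0 < ε → ∀ D : ℕ, ∃ c : ℝ, 0 < c ∧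
      ∀ (A : Finset ℤ) (M : ℕ), A.Nonempty →
      (∀ a ∈ A, ∃ s : ℕ, M ≤ s ∧ s ≤ M + #A ^ D ∧ s ∣ a.natAbs ∧ a.natAbs ≤ s * #A ^ D) →
      c * (#A : ℝ) ^ ((k : ℝ) - ε) ≤ #(prodset fun _ : Fin k => A)) :=
  ⟨fun k ε hε D => dilatesK k ε hε D, fun k ε hε D => power k ε hε D,
    fun k ε hε D => multiples k ε hε D, fun k ε hε D => interval k ε hε D⟩

end Pool.Agent.Results.MP_120218_co.KFoldDilates
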