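import Pool.Agent.Helper318KF.Fin

/-!
# The Erdos-Szemeredi problem for k-fold sums and products: sharper exponents for every `k ≥ 2`
-/

set_option autoImplicit false

namespace Pool.Agent.Results.MP_120218_co.KFoldSharper

open Pool.Agent.W798.KF Pool.Agent.Helper318KF

/-- The exponents: `e_2 = 680/507`, `e_3 = 6385/4501` and, for `k ≥ 4`, with `t = 2^(k-2)`,
`e_k = (8313 t² - 5413 t + 500)/(t (5542 t - 3007))`
(`e_4 = 27964/19161`, `e_5 = 122307/82658`, ..., limit `3/2`). -/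
noncomputable def expo (k : ℕ) : ℝ :=
  if k = 2 then 680 / 507
  else if k = 3 then 6385 / 4501
  else (8313 * (2 ^ (k - 2)) ^ 2 - 5413 * 2 ^ (k - 2) + 500) /
    (2 ^ (k - 2) * (5542 * 2 ^ (k - 2) - 3007))

/-- The case `k = 2`. -/
theorem k2 (κ : ℝ) (hκ : κ < 680 / 507) : ∃ c : ℝ, 0 < c ∧ ∀ A : Finset ℝ,
    A.Nonempty → c * (A.card : ℝ) ^ κ ≤
      max ((sm A 1).card : ℝ) ((pr A 1).card : ℝ) := by
  obtain ⟨c, hc, H⟩ := Pool.Agent.Y569.SP.pRE5 (507 * (680 / 507 - κ)) (by linarith)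
  have hexp : (680 : ℝ) - 507 * (680 / 507 - κ) = 507 * κ := by ring
  rw [hexp] at H
  refine ⟨c ^ ((1 : ℝ) / 507), Real.rpow_pos_of_pos hc _, ?_⟩
  intro A hA
  have h1 : c * (A.card : ℝ) ^ (507 * κ) ≤
      ((sm A 1).card : ℝ) ^ 298 * ((pr A 1).card : ℝ) ^ 209 := H A hA
  have hN : (0 : ℝ) ≤ (A.card : ℝ) := Nat.cast_nonneg _
  obtain ⟨a, ha⟩ : ∃ a : ℝ, a = ((sm A 1).card : ℝ) := ⟨_, rfl⟩
  obtain ⟨b, hb⟩ : ∃ b : ℝ, b = ((pr A 1).card : ℝ) := ⟨_, rfl⟩
  have ha0 : 0 ≤ a := by rw [ha]; positivity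
  have hb0 : 0 ≤ b := by rw [hb]; positivity
  rw [← ha, ← hb] at h1 ⊢
  set m : ℝ := max a b with hm
  have hm0 : 0 ≤ m := le_trans ha0 (le_max_left _ _)
  have h2 : a ^ 298 * b ^ 209 ≤ m ^ 507 := by
    have e : m ^ 507 = m ^ 298 * m ^ 209 := by rw [← pow_add]
    rw [e]
    have e1 : a ^ 298 ≤ m ^ 298 := pow_le_pow_left₀ ha0 (le_max_left _ _) _
    have e2 : b ^ 209 ≤ m ^ 209 := pow_le_pow_left₀ hb0 (le_max_right _ _) _
    exact mul_le_mul e1 e2 (pow_nonneg hb0 _) (pow_nonneg hm0 _)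
  have h3 : c * (A.card : ℝ) ^ (507 * κ) ≤ m ^ 507 := h1.trans h2
  have h4 : (c ^ ((1 : ℝ) / 507) * (A.card : ℝ) ^ κ) ^ 507 =
      c * (A.card : ℝ) ^ (507 * κ) := by
    rw [mul_pow, ← Real.rpow_natCast (c ^ ((1 : ℝ) / 507)), ← Real.rpow_mul hc.le,
      ← Real.rpow_natCast ((A.card : ℝ) ^ κ), ← Real.rpow_mul hN]
    norm_num
    left
    congr 1
    ring
  by_contra hlt
  push Not at hlt
  have h5 : m ^ 507 < (c ^ ((1 : ℝ) / 507) * (A.card : ℝ) ^ κ) ^ 507 :=
    pow_lt_pow_left₀ hlt hm0 (by norm_num)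
  rw [h4] at h5
  linarith

theorem real_bound (j : ℕ) (κ : ℝ) (hκ : κ < expo (j + 2)) : ∃ c : ℝ, 0 < c ∧
    ∀ A : Finset ℝ, A.Nonempty → c * (A.card : ℝ) ^ κ ≤
      max ((sm A (j + 1)).card : ℝ) ((pr A (j + 1)).card : ℝ) := by
  rcases Nat.eq_zero_or_pos j with rfl | hj
  · have h1 : expo (0 + 2) = 680 / 507 := by
      unfold expo
      norm_num
    exact k2 κ (by rw [← h1]; exact hκ)
  · have h1 : expo (j + 2) = ex5 j := by
      unfold expo ex5
      have e : j + 2 - 2 = j := by omega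
      rw [if_neg (by omega), e]
      rcases Nat.lt_or_ge j 2 with h | h
      · rw [if_pos (by omega), if_pos (by omega)]
      · rw [if_neg (by omega), if_neg (by omega)]
    exact k3 j hj κ (by rw [← h1]; exact hκ)

/-- For every `k ≥ 2` and every `κ < e_k` there is `c > 0` such that for every commutative ring `R`
which embeds in the reals (such as `ℤ`) every finite nonempty subset `A` of `R` has at least
`c |A|^κ` sums of `k` elements or at least `c |A|^κ` products of `k` elements. -/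
theorem result : ∀ k : ℕ, 2 ≤ k → ∀ κ : ℝ, κ < expo k →
    ∃ c : ℝ, 0 < c ∧
      ∀ (R : Type) [CommRing R] [DecidableEq R] (f : R →+* ℝ), Function.Injective f →
        ∀ A : Finset R, A.Nonempty →
          c * (A.card : ℝ) ^ κ ≤
            max
              (((Fintype.piFinset (fun _ : Fin k => A)).image
                  (fun g : Fin k → R => ∑ i, g i)).card : ℝ)
              (((Fintype.piFinset (fun _ : Fin k => A)).image
                  (fun g : Fin k → R => ∏ i, g i)).card : ℝ) := by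
  intro k hk κ hκ
  obtain ⟨j, rfl⟩ : ∃ j, k = j + 2 := ⟨k - 2, by omega⟩
  obtain ⟨c, hc, H⟩ := real_bound j κ hκ
  refine ⟨c, hc, ?_⟩
  intro R _ _ f hf A hA
  obtain ⟨h1, h2⟩ := pIM R f hf A (j + 1)
  have h3 := H (A.image f) (hA.image f)
  rw [Finset.card_image_of_injective _ hf, h1, h2] at h3
  exact h3

end Pool.Agent.Results.MP_120218_co.KFoldSharper
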