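import Mathlib
import Pool.Agent.RAC963.KS.Poly

set_option autoImplicit false

/-!
# The k-fold Erdős–Szemerédi conjecture for sets of short sums over a group of finite rank

Let `Γ` be a finitely generated group of algebraic numbers and let `s`, `k` and `ε > 0` be given.
There is `δ > 0` such that `|kA| ≥ c |A| ^ (k - ε)` for all finite sets `A` of integers with at least
`|A| ^ (1 - δ)` elements which are (after one affine map `x ↦ q x + t`) sums of at most `s` products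
`c u`, where some power of `u` is in `Γ` and the rational numbers `c` belong to a set `D` (depending
on `A`) of at most `|A| ^ δ` numbers with numerators and denominators at most `exp (|A| ^ δ)`.

Proof. By the theorem on vanishing sums of elements of a group of finite rank (from the subspace
theorem) the ratios of the terms of nondegenerate vanishing sums lie in a set of polynomial size.
Write the elements of `A` with as few terms as possible, where terms with such a ratio are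
merged. Then in every solution of `a_1 + ⋯ + a_k = a_1' + ⋯ + a_k'` every term of a summand has a
partner in another summand, and Shearer's inequality bounds the number of solutions.
-/

open Finset

namespace Pool.Agent.Results.MP_120218_co.ShortSumsFiniteRank

open Pool.Agent.Helper259.AbsHt Pool.Agent.Y215.SK Pool.Agent.RAC963.KS

/-- the `k`-fold sumset `kA` -/
def sumset (k : ℕ) (A : Finset ℤ) : Finset ℤ :=
  (Fintype.piFinset (fun _ : Fin k => A)).image (fun a => ∑ i, a i)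

/-- the `k`-fold product set `A ^ k` -/
def prodset (k : ℕ) (A : Finset ℤ) : Finset ℤ :=
  (Fintype.piFinset (fun _ : Fin k => A)).image (fun a => ∏ i, a i)

/-- the sum of dilates `l_1 A + ⋯ + l_k A` -/
def dilates {k : ℕ} (l : Fin k → ℤ) (A : Finset ℤ) : Finset ℤ :=
  (Fintype.piFinset (fun _ : Fin k => A)).image (fun a => ∑ i, l i * a i)

/-- `x` is a sum of at most `s` products `c u`, where `c ∈ D` and `u` is an algebraic number with a
positive power in `Γ` -/
def Short (Γ : Subgroup (AlgebraicClosure ℚ)ˣ) (D : Finset ℚ) (s : ℕ) (x : ℚ) : Prop :=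
  ∃ n ≤ s, ∃ (c : Fin n → ℚ) (u : Fin n → (AlgebraicClosure ℚ)ˣ),
    (∀ j, c j ∈ D ∧ ∃ m : ℕ, 0 < m ∧ u j ^ m ∈ Γ) ∧
    algebraMap ℚ (AlgebraicClosure ℚ) x =
      ∑ j, algebraMap ℚ (AlgebraicClosure ℚ) (c j) * (u j : AlgebraicClosure ℚ)

/-- `x` is a sum of at most `s` terms `c ∏_{p ∈ P} p ^ e_p`, where `c ∈ D` and the exponents `e_p` are
integers of any sign -/
def ShortP (P : Finset ℕ) (D : Finset ℚ) (s : ℕ) (x : ℚ) : Prop :=
  ∃ n ≤ s, ∃ (c : Fin n → ℚ) (e : Fin n → ℕ → ℤ), (∀ j, c j ∈ D) ∧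
    x = ∑ j, c j * ∏ p ∈ P, (p : ℚ) ^ (e j p)

/-- the numerators and denominators of the elements of `D` are at most `exp H` -/
def HeightLE (D : Finset ℚ) (H : ℝ) : Prop :=
  ∀ c ∈ D, |(c.num : ℝ)| ≤ Real.exp H ∧ (c.den : ℝ) ≤ Real.exp H

lemma h1_rat (c : ℚ) (H : ℝ) (h1 : |(c.num : ℝ)| ≤ Real.exp H) (h2 : (c.den : ℝ) ≤ Real.exp H) :
    Pool.Agent.Y215.SK.h1 (algebraMap ℚ (AlgebraicClosure ℚ) c) ≤ H := by
  have h3 := Pool.Agent.Y215.SK.h1_eq ℚ (algebraMap ℚ (AlgebraicClosure ℚ)) c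
  rw [h3, Module.finrank_self, Nat.cast_one, div_one, Rat.logHeight₁_eq_log_max]
  have h4 : ((max c.num.natAbs c.den : ℕ) : ℝ) ≤ Real.exp H := by
    rw [Nat.cast_max]
    refine max_le ?_ h2
    rw [Nat.cast_natAbs]
    push_cast
    exact h1
  have h5 : (0 : ℝ) < ((max c.num.natAbs c.den : ℕ) : ℝ) := by
    have := c.den_pos
    have h6 : 0 < max c.num.natAbs c.den := lt_max_of_lt_right this
    exact_mod_cast h6
  exact (Real.log_le_iff_le_exp h5).2 h4

lemma final_bound (M k : ℕ) (H x y : ℝ) (hH : 1 ≤ H) (hx0 : 0 ≤ x) (hy0 : 0 ≤ y)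
    (hx : x ≤ k * (1 + H)) (hy : y ≤ (1 + H) * (1 + H)) :
    (M : ℝ) * (1 + x + y) ^ M ≤
      ((M * (2 * k + 5) ^ M + 2 * M : ℕ) : ℝ) * H ^ (M * (2 * k + 5) ^ M + 2 * M) := by
  have h1 : 1 + x + y ≤ (2 * k + 5) * H ^ 2 := by
    have hk : (0 : ℝ) ≤ k := Nat.cast_nonneg k
    have h2 : H ≤ H ^ 2 := by nlinarith
    have h3 : (k : ℝ) * (1 + H) ≤ 2 * k * H ^ 2 := by nlinarith
    nlinarith
  calc (M : ℝ) * (1 + x + y) ^ M ≤ M * ((2 * k + 5) * H ^ 2) ^ M :=
        mul_le_mul_of_nonneg_left (pow_le_pow_left₀ (by linarith) h1 M) (Nat.cast_nonneg _)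
    _ = ((M * (2 * k + 5) ^ M : ℕ) : ℝ) * H ^ (2 * M) := by
        rw [mul_pow, ← pow_mul]
        push_cast
        ring
    _ ≤ _ := by
        refine mul_le_mul ?_ (pow_le_pow_right₀ hH (by omega)) (by positivity) (by positivity)
        exact_mod_cast (by omega : M * (2 * k + 5) ^ M ≤ M * (2 * k + 5) ^ M + 2 * M)

/-- the inequality -/
theorem part1 (Γ : Subgroup (AlgebraicClosure ℚ)ˣ) (hΓ : Γ.FG) (s k : ℕ) (hk : 1 ≤ k) :
    ∃ C : ℕ, ∀ (H : ℝ) (D : Finset ℚ) (l : Fin k → ℤ) (q t : ℚ) (A : Finset ℤ), 1 ≤ H →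
      (D.card : ℝ) ≤ H → HeightLE D H → (∀ i, l i ≠ 0 ∧ |(l i : ℝ)| ≤ Real.exp H) → q ≠ 0 →
      (∀ a ∈ A, Short Γ D s (q * a + t)) →
      (A.card : ℝ) ^ k ≤ C * H ^ C * (dilates l A).card := by
  classical
  obtain ⟨M, hM⟩ := poly Γ hΓ (Fin s) k hk
  refine ⟨M * (2 * k + 5) ^ M + 2 * M, fun H D l q t A hH hDc hDh hl hq hA => ?_⟩
  let φ : ℚ →+* AlgebraicClosure ℚ := algebraMap ℚ (AlgebraicClosure ℚ)
  have hφ : Function.Injective φ := φ.injective
  let ι : ℤ → AlgebraicClosure ℚ := fun a => φ (q * a + t)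
  have hι : Function.Injective ι := by
    intro a b hab
    have h1 := hφ hab
    have h2 : q * ((a : ℚ) - b) = 0 := by linarith
    have h3 := (mul_eq_zero.1 h2).resolve_left hq
    exact_mod_cast (sub_eq_zero.1 h3)
  let L : Finset (AlgebraicClosure ℚ) := Finset.univ.image (fun i => φ (l i : ℚ))
  let D' : Finset (AlgebraicClosure ℚ) := (insert 0 D).image φ
  have hLsz : sz L ≤ k * (1 + H) := by
    have h1 : ∀ w ∈ L, Pool.Agent.Y215.SK.h1 w ≤ H := by
      intro w hw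
      obtain ⟨i, _, rfl⟩ := Finset.mem_image.1 hw
      refine h1_rat _ H ?_ ?_
      · rw [Rat.num_intCast]
        exact (hl i).2
      · rw [Rat.den_intCast, Nat.cast_one]
        exact Real.one_le_exp (by linarith)
    refine (sz_le h1).trans (mul_le_mul_of_nonneg_right ?_ (by linarith))
    have h2 : L.card ≤ k := Finset.card_image_le.trans (by simp)
    exact_mod_cast h2
  have hDsz : sz D' ≤ (1 + H) * (1 + H) := by
    have h1 : ∀ w ∈ D', Pool.Agent.Y215.SK.h1 w ≤ H := by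
      intro w hw
      obtain ⟨c, hc, rfl⟩ := Finset.mem_image.1 hw
      rcases Finset.mem_insert.1 hc with rfl | hc
      · refine h1_rat _ H ?_ ?_
        · simp only [Rat.num_zero, Int.cast_zero, abs_zero]
          exact (Real.exp_pos _).le
        · simp only [Rat.den_zero, Nat.cast_one]
          exact Real.one_le_exp (by linarith)
      · exact h1_rat _ H (hDh c hc).1 (hDh c hc).2
    refine (sz_le h1).trans (mul_le_mul_of_nonneg_right ?_ (by linarith))
    have h2 : D'.card ≤ D.card + 1 := Finset.card_image_le.trans (Finset.card_insert_le _ _)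
    have h3 : (D'.card : ℝ) ≤ D.card + 1 := by exact_mod_cast h2
    linarith
  have hmain := hM (fun i => φ (l i : ℚ))
    (fun i => by
      have h1 := (hl i).1
      intro h
      have h2 : ((l i : ℤ) : ℚ) = 0 := hφ (h.trans (map_zero φ).symm)
      exact h1 (by exact_mod_cast h2))
    L D' (A.image ι) (fun i => Finset.mem_image_of_mem _ (Finset.mem_univ i))
    (by
      intro z hz
      obtain ⟨a, ha, rfl⟩ := Finset.mem_image.1 hz
      obtain ⟨n, hn, c, u, h1, h2⟩ := hA a ha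
      refine ⟨fun b => if h : b.1 < n then u ⟨b.1, h⟩ else 1,
        fun b => if h : b.1 < n then φ (c ⟨b.1, h⟩) else 0, fun b => ⟨?_, ?_⟩, ?_⟩
      · beta_reduce
        by_cases h : b.1 < n
        · rw [dif_pos h]
          exact (h1 ⟨b.1, h⟩).2
        · rw [dif_neg h]
          exact ⟨1, one_pos, by rw [one_pow]; exact Γ.one_mem⟩
      · beta_reduce
        by_cases h : b.1 < n
        · rw [dif_pos h]
          exact Finset.mem_image_of_mem _ (Finset.mem_insert_of_mem (h1 ⟨b.1, h⟩).1)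
        · rw [dif_neg h]
          exact Finset.mem_image.2 ⟨0, Finset.mem_insert_self _ _, map_zero φ⟩
      · show φ (q * a + t) = _
        have h3 : φ (q * a + t) = ∑ j : Fin n, φ (c j) * (u j : AlgebraicClosure ℚ) := h2
        rw [h3]
        have h4 : ∀ b : Fin s, (((if h : b.1 < n then u ⟨b.1, h⟩ else 1 :
            (AlgebraicClosure ℚ)ˣ)) : AlgebraicClosure ℚ) *
            (if h : b.1 < n then φ (c ⟨b.1, h⟩) else 0) =
            if h : b.1 < n then φ (c ⟨b.1, h⟩) * (u ⟨b.1, h⟩ : AlgebraicClosure ℚ) else 0 := by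
          intro b
          by_cases h : b.1 < n
          · rw [dif_pos h, dif_pos h, dif_pos h, mul_comm]
          · rw [dif_neg h, dif_neg h, dif_neg h, mul_zero]
        simp only [h4]
        rw [← Finset.sum_filter_add_sum_filter_not (s := (Finset.univ : Finset (Fin s)))
          (p := fun b : Fin s => b.1 < n)]
        rw [Finset.sum_eq_zero (s := Finset.univ.filter (fun b : Fin s => ¬ b.1 < n)) (by
          intro b hb
          rw [Finset.mem_filter] at hb
          rw [dif_neg hb.2]), add_zero]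
        symm
        refine Finset.sum_bij (fun b hb => ⟨b.1, (Finset.mem_filter.1 hb).2⟩) ?_ ?_ ?_ ?_
        · intro b hb
          exact Finset.mem_univ _
        · intro b hb b' hb' h
          have h5 := congrArg Fin.val h
          exact Fin.ext h5
        · intro j _
          exact ⟨⟨j.1, lt_of_lt_of_le j.2 hn⟩, Finset.mem_filter.2 ⟨Finset.mem_univ _, j.2⟩, rfl⟩
        · intro b hb
          rw [dif_pos (Finset.mem_filter.1 hb).2])
  rw [Finset.card_image_of_injective _ hι] at hmain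
  have himg : ((Fintype.piFinset (fun _ : Fin k => A.image ι)).image
      (fun y => ∑ i, φ (l i : ℚ) * y i)).card ≤ (dilates l A).card := by
    let ψ : ℤ → AlgebraicClosure ℚ := fun v => φ (q * v + t * ∑ i, (l i : ℚ))
    have h1 : (Fintype.piFinset (fun _ : Fin k => A.image ι)).image
      (fun y => ∑ i, φ (l i : ℚ) * y i) ⊆ (dilates l A).image ψ := by
      intro z hz
      obtain ⟨y, hy, rfl⟩ := Finset.mem_image.1 hz
      rw [Fintype.mem_piFinset] at hy
      have h2 : ∀ i, ∃ a ∈ A, ι a = y i := fun i => Finset.mem_image.1 (hy i)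
      choose a ha hay using h2
      refine Finset.mem_image.2 ⟨∑ i, l i * a i, Finset.mem_image.2
        ⟨a, Fintype.mem_piFinset.2 ha, rfl⟩, ?_⟩
      show φ (q * ((∑ i, l i * a i : ℤ) : ℚ) + t * ∑ i, (l i : ℚ)) = _
      have h3 : q * ((∑ i, l i * a i : ℤ) : ℚ) + t * ∑ i, (l i : ℚ) =
          ∑ i, (l i : ℚ) * (q * a i + t) := by
        push_cast
        rw [Finset.mul_sum, Finset.mul_sum, ← Finset.sum_add_distrib]
        exact Finset.sum_congr rfl fun i _ => by ring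
      rw [h3, map_sum]
      refine Finset.sum_congr rfl fun i _ => ?_
      rw [map_mul, ← hay i]
    exact (Finset.card_le_card h1).trans Finset.card_image_le
  refine hmain.trans ?_
  have hb := final_bound M k H (sz L) (sz D') hH (sz_nonneg _) (sz_nonneg _) hLsz hDsz
  exact mul_le_mul hb (by exact_mod_cast himg) (Nat.cast_nonneg _) (by positivity)

/-- the conjecture for sets with many short elements -/
theorem part2 (Γ : Subgroup (AlgebraicClosure ℚ)ˣ) (hΓ : Γ.FG) (s k : ℕ) (hk : 1 ≤ k) (ε : ℝ)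
    (hε : 0 < ε) :
    ∃ (δ : ℝ) (c : ℝ), 0 < δ ∧ 0 < c ∧ ∀ (A B : Finset ℤ) (D : Finset ℚ) (q t : ℚ),
      A.Nonempty → B ⊆ A → (A.card : ℝ) ^ (1 - δ) ≤ B.card → (D.card : ℝ) ≤ (A.card : ℝ) ^ δ →
      HeightLE D ((A.card : ℝ) ^ δ) → q ≠ 0 → (∀ b ∈ B, Short Γ D s (q * b + t)) →
      c * (A.card : ℝ) ^ ((k : ℝ) - ε) ≤ (sumset k A).card := by
  classical
  obtain ⟨C, hC⟩ := part1 Γ hΓ s k hk
  have hpos : (0 : ℝ) < k + C + 1 := by positivity
  have hδ : 0 < ε / (k + C + 1) := div_pos hε hpos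
  refine ⟨ε / (k + C + 1), 1 / (C + 1), hδ, by positivity, fun A B D q t hne hBA hB hDc hDh hq hs => ?_⟩
  obtain ⟨δ, hδe⟩ : ∃ δ, δ = ε / (k + C + 1) := ⟨_, rfl⟩
  rw [← hδe] at hB hDc hDh hδ
  have hδε : δ * (k + C + 1) = ε := by
    rw [hδe]
    exact div_mul_cancel₀ _ hpos.ne'
  have ha1 : (1 : ℝ) ≤ A.card := by
    have := Finset.card_pos.2 hne
    exact_mod_cast this
  have ha0 : (0 : ℝ) < A.card := by linarith
  have hH : 1 ≤ (A.card : ℝ) ^ δ := Real.one_le_rpow ha1 hδ.le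
  have h1 := hC ((A.card : ℝ) ^ δ) D (fun _ => 1) q t B hH hDc hDh
    (fun i => ⟨one_ne_zero, by
      rw [Int.cast_one, abs_one]
      exact Real.one_le_exp (by linarith)⟩) hq hs
  have h2 : (dilates (fun _ : Fin k => (1 : ℤ)) B).card ≤ (sumset k A).card := by
    refine Finset.card_le_card ?_
    intro z hz
    obtain ⟨y, hy, rfl⟩ := Finset.mem_image.1 hz
    rw [Fintype.mem_piFinset] at hy
    refine Finset.mem_image.2 ⟨y, Fintype.mem_piFinset.2 fun i => hBA (hy i), ?_⟩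
    simp only [one_mul]
  have h3 : ((A.card : ℝ) ^ (1 - δ)) ^ k ≤ (B.card : ℝ) ^ k :=
    pow_le_pow_left₀ (by positivity) hB k
  have h4 : (A.card : ℝ) ^ ((1 - δ) * k) ≤
      (C * (A.card : ℝ) ^ (δ * C)) * (sumset k A).card := by
    rw [Real.rpow_mul ha0.le, Real.rpow_natCast]
    refine h3.trans (h1.trans ?_)
    rw [Real.rpow_mul ha0.le, Real.rpow_natCast]
    exact mul_le_mul_of_nonneg_left (by exact_mod_cast h2) (by positivity)
  have h5 : (A.card : ℝ) ^ ((k : ℝ) - ε) ≤ (C + 1) * (sumset k A).card := by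
    have h6 : (A.card : ℝ) ^ ((k : ℝ) - ε) * (A.card : ℝ) ^ (δ * C) ≤
        (A.card : ℝ) ^ ((1 - δ) * k) := by
      rw [← Real.rpow_add ha0]
      refine Real.rpow_le_rpow_of_exponent_le ha1 ?_
      nlinarith
    have h7 : (0 : ℝ) < (A.card : ℝ) ^ (δ * C) := by positivity
    have h8 : (A.card : ℝ) ^ ((k : ℝ) - ε) * (A.card : ℝ) ^ (δ * C) ≤
        ((C + 1) * (sumset k A).card) * (A.card : ℝ) ^ (δ * C) := by
      refine h6.trans (h4.trans ?_)
      have h9 : (0 : ℝ) ≤ ((sumset k A).card : ℝ) := Nat.cast_nonneg _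
      have h10 : (0 : ℝ) ≤ (A.card : ℝ) ^ (δ * C) * (sumset k A).card := by positivity
      nlinarith
    exact le_of_mul_le_mul_right h8 h7
  have h6 : (0 : ℝ) < C + 1 := by positivity
  rw [div_mul_eq_mul_div, one_mul, div_le_iff₀ h6]
  linarith [mul_comm ((C : ℝ) + 1) ((sumset k A).card : ℝ)]

/-- the group generated by the numbers in `P` -/
noncomputable def grp (P : Finset ℕ) : Subgroup (AlgebraicClosure ℚ)ˣ :=
  Subgroup.closure (Set.range fun p : {p // p ∈ P ∧ p ≠ 0} =>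
    Units.mk0 ((p.1 : ℕ) : AlgebraicClosure ℚ) (Nat.cast_ne_zero.2 p.2.2))

lemma grp_fg (P : Finset ℕ) : (grp P).FG := by
  classical
  have : Finite {p // p ∈ P ∧ p ≠ 0} :=
    Finite.of_injective (fun p : {p // p ∈ P ∧ p ≠ 0} => (⟨p.1, p.2.1⟩ : P)) (by
      intro a b h
      exact Subtype.ext (congrArg (fun x : {p // p ∈ P} => (x : ℕ)) h))
  exact (Subgroup.fg_iff _).2 ⟨_, rfl, Set.finite_range _⟩

lemma short_of_shortP (P : Finset ℕ) (hP : ∀ p ∈ P, p ≠ 0) (D : Finset ℚ) (s : ℕ) (x : ℚ)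
    (h : ShortP P D s x) : Short (grp P) D s x := by
  classical
  obtain ⟨n, hn, c, e, h1, h2⟩ := h
  refine ⟨n, hn, c, fun j => ∏ p : P, (Units.mk0 ((p.1 : ℕ) : AlgebraicClosure ℚ)
    (Nat.cast_ne_zero.2 (hP p.1 p.2))) ^ (e j p.1), fun j => ⟨h1 j, 1, one_pos, ?_⟩, ?_⟩
  · rw [pow_one]
    refine Subgroup.prod_mem _ fun p _ => Subgroup.zpow_mem _ ?_ _
    exact Subgroup.subset_closure ⟨⟨p.1, p.2, hP p.1 p.2⟩, rfl⟩
  · rw [h2, map_sum]
    refine Finset.sum_congr rfl fun j _ => ?_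
    rw [map_mul, map_prod, Units.coe_prod]
    congr 1
    rw [← Finset.prod_coe_sort P (fun p => algebraMap ℚ (AlgebraicClosure ℚ) ((p : ℚ) ^ (e j p)))]
    refine Finset.prod_congr rfl fun p _ => ?_
    rw [map_zpow₀, map_natCast, Units.val_zpow_eq_zpow_val]
    rfl

theorem result :
    -- (1) the sums of dilates of sets of short sums over a group of finite rank
    (∀ Γ : Subgroup (AlgebraicClosure ℚ)ˣ, Γ.FG → ∀ s k : ℕ, 1 ≤ k →
      ∃ C : ℕ, ∀ (H : ℝ) (D : Finset ℚ) (l : Fin k → ℤ) (q t : ℚ) (A : Finset ℤ), 1 ≤ H →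
        (D.card : ℝ) ≤ H → HeightLE D H → (∀ i, l i ≠ 0 ∧ |(l i : ℝ)| ≤ Real.exp H) → q ≠ 0 →
        (∀ a ∈ A, Short Γ D s (q * a + t)) →
        (A.card : ℝ) ^ k ≤ C * H ^ C * (dilates l A).card) ∧
    -- (2) the conjecture for sets with many short elements
    (∀ Γ : Subgroup (AlgebraicClosure ℚ)ˣ, Γ.FG → ∀ s k : ℕ, 1 ≤ k → ∀ ε : ℝ, 0 < ε →
      ∃ (δ : ℝ) (c : ℝ), 0 < δ ∧ 0 < c ∧ ∀ (A B : Finset ℤ) (D : Finset ℚ) (q t : ℚ),
        A.Nonempty → B ⊆ A → (A.card : ℝ) ^ (1 - δ) ≤ B.card →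
        (D.card : ℝ) ≤ (A.card : ℝ) ^ δ → HeightLE D ((A.card : ℝ) ^ δ) → q ≠ 0 →
        (∀ b ∈ B, Short Γ D s (q * b + t)) →
        c * (A.card : ℝ) ^ ((k : ℝ) - ε) ≤
          max ((sumset k A).card : ℝ) ((prodset k A).card : ℝ)) ∧
    -- (3) the conjecture for sets with many elements with short multi-base expansions
    (∀ P : Finset ℕ, (∀ p ∈ P, p ≠ 0) → ∀ s k : ℕ, 1 ≤ k → ∀ ε : ℝ, 0 < ε →
      ∃ (δ : ℝ) (c : ℝ), 0 < δ ∧ 0 < c ∧ ∀ (A B : Finset ℤ) (D : Finset ℚ) (q t : ℚ),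
        A.Nonempty → B ⊆ A → (A.card : ℝ) ^ (1 - δ) ≤ B.card →
        (D.card : ℝ) ≤ (A.card : ℝ) ^ δ → HeightLE D ((A.card : ℝ) ^ δ) → q ≠ 0 →
        (∀ b ∈ B, ShortP P D s (q * b + t)) →
        c * (A.card : ℝ) ^ ((k : ℝ) - ε) ≤
          max ((sumset k A).card : ℝ) ((prodset k A).card : ℝ)) := by
  refine ⟨fun Γ hΓ s k hk => part1 Γ hΓ s k hk, fun Γ hΓ s k hk ε hε => ?_,
    fun P hP s k hk ε hε => ?_⟩
  · obtain ⟨δ, c, hδ, hc, h⟩ := part2 Γ hΓ s k hk ε hε
    exact ⟨δ, c, hδ, hc, fun A B D q t h1 h2 h3 h4 h5 h6 h7 =>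
      (h A B D q t h1 h2 h3 h4 h5 h6 h7).trans (le_max_left _ _)⟩
  · obtain ⟨δ, c, hδ, hc, h⟩ := part2 (grp P) (grp_fg P) s k hk ε hε
    exact ⟨δ, c, hδ, hc, fun A B D q t h1 h2 h3 h4 h5 h6 h7 =>
      (h A B D q t h1 h2 h3 h4 h5 h6
        (fun b hb => short_of_shortP P hP D s _ (h7 b hb))).trans (le_max_left _ _)⟩

end Pool.Agent.Results.MP_120218_co.ShortSumsFiniteRank
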