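import Pool.Agent.Helper318SP3.Main4

set_option autoImplicit false

namespace Pool.Agent.Results.MP_120218_co.ThreeSumsManyProducts

open Finset Pool.Agent.H384R3.SPk Pool.Agent.Helper318SP3

theorem sum_succ (k : ℕ) {A : Finset ℤ} (hA : A.Nonempty) :
    (sumset k A).card ≤ (sumset (k + 1) A).card := by
  classical
  obtain ⟨a, ha⟩ := hA
  refine Finset.card_le_card_of_injOn (fun x => a + x) ?_ ?_
  · intro x hx
    have hx' : x ∈ sumset k A := hx
    unfold sumset at hx' ⊢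
    rw [Finset.mem_image] at hx'
    obtain ⟨f, hf, rfl⟩ := hx'
    rw [Fintype.mem_piFinset] at hf
    refine Finset.mem_coe.2 (Finset.mem_image.2 ⟨Fin.cons a f, ?_, ?_⟩)
    · rw [Fintype.mem_piFinset]
      intro i
      refine Fin.cases ?_ (fun j => ?_) i
      · simpa using ha
      · simpa using hf j
    · rw [Fin.sum_univ_succ]
      simp
  · intro x _ y _ hxy
    exact add_left_cancel hxy

theorem max_of {s P X a β : ℝ} (hβ : 0 < β) (ha : 0 ≤ a) (hs0 : 0 ≤ s) (hP0 : 0 ≤ P)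
    (hs : s ≤ X) (hP : P ≤ X)
    (h : a ^ (3 * (1 + β)) ≤ 12 ^ (3 * (1 + β)) * (s * P ^ (3 * β))) (hX : 0 < X) :
    (a / 12) ^ (3 * (1 + β) / (1 + 3 * β)) ≤ X := by
  have h1 : (a / 12) ^ (3 * (1 + β)) ≤ X ^ (1 + 3 * β) := by
    rw [Real.div_rpow ha (by norm_num), div_le_iff₀ (by positivity)]
    calc a ^ (3 * (1 + β)) ≤ 12 ^ (3 * (1 + β)) * (s * P ^ (3 * β)) := h
      _ ≤ 12 ^ (3 * (1 + β)) * (X * X ^ (3 * β)) := by
          refine mul_le_mul_of_nonneg_left ?_ (by positivity)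
          exact mul_le_mul hs (Real.rpow_le_rpow hP0 hP (by positivity)) (by positivity) hX.le
      _ = X ^ (1 + 3 * β) * 12 ^ (3 * (1 + β)) := by
          rw [Real.rpow_add hX, Real.rpow_one]
          ring
  have h2 := Real.rpow_le_rpow (by positivity) h1 (show 0 ≤ 1 / (1 + 3 * β) by positivity)
  rw [← Real.rpow_mul (by positivity), ← Real.rpow_mul hX.le] at h2
  have e1 : 3 * (1 + β) * (1 / (1 + 3 * β)) = 3 * (1 + β) / (1 + 3 * β) := by ring
  have e2 : (1 + 3 * β) * (1 / (1 + 3 * β)) = 1 := by field_simp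
  rwa [e1, e2, Real.rpow_one] at h2

/-- Three-fold sums against `n`-fold products of integers. -/
theorem result :
    -- (1) `n` sets, and one set
    (∀ (n : ℕ) (β : ℝ), 2 ≤ n → (n = 4 ∧ 19 / 18 ≤ β ∨ n = 5 ∧ 9 / 10 ≤ β ∨
        500 / 133 ≤ ((n : ℝ) - (n - 1) * (133 / 500)) ^ β) →
      (∀ A : Fin n → Finset ℤ, (∀ i, ∃ a ∈ A i, a ≠ 0) →
        ∏ i, ((A i).card : ℝ) ^ (3 * (1 + β)) ≤ 12 ^ (3 * n * (1 + β)) *
          ((∏ i, (((Fintype.piFinset fun _ : Fin 3 => A i).image fun f => ∑ j, f j).card : ℝ)) *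
            (((Fintype.piFinset A).image fun f => ∏ i, f i).card : ℝ) ^ (3 * n * β))) ∧
      (∀ A : Finset ℤ, A.Nonempty →
        (A.card : ℝ) ^ (3 * (1 + β)) ≤ 12 ^ (3 * (1 + β)) *
          ((((Fintype.piFinset fun _ : Fin 3 => A).image fun f => ∑ i, f i).card : ℝ) *
            (((Fintype.piFinset fun _ : Fin n => A).image fun f => ∏ i, f i).card : ℝ) ^
              (3 * β)))) ∧
    -- (2) the maximum of `|4A|` and `|A^4|`, and of `|5A|` and `|A^5|`
    (∀ A : Finset ℤ, A.Nonempty →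
      ((A.card : ℝ) / 12) ^ ((37 : ℝ) / 25) ≤
        max (((Fintype.piFinset fun _ : Fin 4 => A).image fun f => ∑ i, f i).card : ℝ)
          (((Fintype.piFinset fun _ : Fin 4 => A).image fun f => ∏ i, f i).card : ℝ) ∧
      ((A.card : ℝ) / 12) ^ ((57 : ℝ) / 37) ≤
        max (((Fintype.piFinset fun _ : Fin 5 => A).image fun f => ∑ i, f i).card : ℝ)
          (((Fintype.piFinset fun _ : Fin 5 => A).image fun f => ∏ i, f i).card : ℝ)) := by
  refine ⟨fun n β hn h => ⟨fun A hA => n_sets hn h A hA, fun A hA => n_one hn h A hA⟩,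
    fun A hA => ⟨?_, ?_⟩⟩
  · have h1 := n_one (n := 4) (β := 19 / 18) (by norm_num) (Or.inl ⟨rfl, le_rfl⟩) A hA
    have a1 : ((sumset 3 A).card : ℝ) ≤ (sumset 4 A).card := by
      exact_mod_cast sum_succ 3 hA
    have a3 : (1:ℝ) ≤ (sumset 4 A).card := by exact_mod_cast card_pos_sum 4 hA
    have h2 := max_of (β := 19 / 18) (by norm_num) (Nat.cast_nonneg _) (Nat.cast_nonneg _)
      (Nat.cast_nonneg _) (a1.trans (le_max_left _ _)) (le_max_right ((sumset 4 A).card : ℝ) _) h1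
      (lt_of_lt_of_le one_pos (a3.trans (le_max_left _ _)))
    have e : (3 * (1 + 19 / 18) / (1 + 3 * (19 / 18)) : ℝ) = 37 / 25 := by norm_num
    rw [e] at h2
    exact h2
  · have h1 := n_one (n := 5) (β := 9 / 10) (by norm_num) (Or.inr (Or.inl ⟨rfl, le_rfl⟩)) A hA
    have a1 : ((sumset 3 A).card : ℝ) ≤ (sumset 5 A).card := by
      exact_mod_cast (sum_succ 3 hA).trans (sum_succ 4 hA)
    have a3 : (1:ℝ) ≤ (sumset 5 A).card := by exact_mod_cast card_pos_sum 5 hA
    have h2 := max_of (β := 9 / 10) (by norm_num) (Nat.cast_nonneg _) (Nat.cast_nonneg _)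
      (Nat.cast_nonneg _) (a1.trans (le_max_left _ _)) (le_max_right ((sumset 5 A).card : ℝ) _) h1
      (lt_of_lt_of_le one_pos (a3.trans (le_max_left _ _)))
    have e : (3 * (1 + 9 / 10) / (1 + 3 * (9 / 10)) : ℝ) = 57 / 37 := by norm_num
    rw [e] at h2
    exact h2

end Pool.Agent.Results.MP_120218_co.ThreeSumsManyProducts
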